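import Mathlib

/-!
# The conjecture A of Lefschetz type for all divisors, in terms of the cohomology algebra
-/

namespace Pool.Agent.H802T

variable {K A : Type} [Field K] [Ring A] [Algebra K A]

/-- The hard Lefschetz theorem for the element `d` of the algebra `A` with the graded pieces `gr i`:
for all `i ≤ n` the multiplication by `d ^ (n - i)` is injective on `gr i`, with `gr (2 n - i)`
contained in the image. -/
def HardElt (gr : ℕ → Submodule K A) (n : ℕ) (d : A) : Prop :=
  ∀ i ≤ n, (∀ a ∈ gr i, d ^ (n - i) * a = 0 → a = 0) ∧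
    ∀ b ∈ gr (2 * n - i), ∃ a ∈ gr i, d ^ (n - i) * a = b

/-- The conjecture A for all elements `d` of the set `alg 1` with hard Lefschetz: for `2 j ≤ n`
every element of `alg (n - j)` is the product of `d ^ (n - 2 j)` with an element of `alg j`. -/
def ConjA (gr : ℕ → Submodule K A) (alg : ℕ → Set A) (n : ℕ) : Prop :=
  ∀ d ∈ alg 1, HardElt gr n d → ∀ j, 2 * j ≤ n → ∀ c ∈ alg (n - j), ∃ c' ∈ alg j,
    d ^ (n - 2 * j) * c' = c

end Pool.Agent.H802T
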