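import Pool.Agent.H802T.Log

/-!
# The dimensions of the orthogonal and symplectic Lie algebras
-/

set_option autoImplicit false
set_option linter.unusedSectionVars false

namespace Pool.Agent.H802T

open Module Finset Function

theorem card_pairs (d : ℕ) :
    2 * Fintype.card {p : Fin d × Fin d // p.1 < p.2} + d = d * d ∧
    Fintype.card {p : Fin d × Fin d // p.1 ≤ p.2} =
      Fintype.card {p : Fin d × Fin d // p.1 < p.2} + d := by
  classical
  have h1 : Fintype.card {p : Fin d × Fin d // p.1 ≤ p.2} =
      Fintype.card {p : Fin d × Fin d // p.1 < p.2} + d := by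
    rw [Fintype.card_subtype, Fintype.card_subtype]
    have e : (univ.filter fun p : Fin d × Fin d => p.1 ≤ p.2) =
        (univ.filter fun p : Fin d × Fin d => p.1 < p.2) ∪ univ.image fun i => (i, i) := by
      ext ⟨i, j⟩
      simp only [mem_filter, mem_univ, true_and, mem_union, mem_image, Prod.mk.injEq,
        exists_eq_left]
      exact le_iff_lt_or_eq
    rw [e, card_union_of_disjoint, card_image_of_injective, card_univ, Fintype.card_fin]
    · intro i j h
      exact (Prod.mk.inj h).1
    · rw [Finset.disjoint_left]
      rintro ⟨i, j⟩ h2 h3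
      simp only [mem_filter, mem_univ, true_and, mem_image, Prod.mk.injEq, exists_eq_left] at h2 h3
      exact absurd h2 (by rw [h3]; exact lt_irrefl _)
  refine ⟨?_, h1⟩
  have h2 : Fintype.card {p : Fin d × Fin d // p.1 ≤ p.2} +
      Fintype.card {p : Fin d × Fin d // p.1 < p.2} = d * d := by
    have h3 : Fintype.card {p : Fin d × Fin d // p.1 < p.2} =
        Fintype.card {p : Fin d × Fin d // ¬ p.1 ≤ p.2} := by
      refine Fintype.card_congr ((Equiv.prodComm _ _).subtypeEquiv fun p => ?_)
      simp
    rw [h3, Fintype.card_subtype_compl, Fintype.card_prod, Fintype.card_fin]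
    refine Nat.add_sub_cancel' ?_
    have h4 := Fintype.card_subtype_le fun p : Fin d × Fin d => p.1 ≤ p.2
    rwa [Fintype.card_prod, Fintype.card_fin] at h4
  omega

variable {K : Type} [Field K] [CharZero K] {Γ : Type} [Group Γ]

/-- operators with given forms -/
theorem PRep.exists_op (P : PRep K Γ) (b : P.V →ₗ[K] P.V →ₗ[K] K) :
    ∃ X : End K P.V, ∀ x y, P.form (X x) y = b x y := by
  have hinj : Injective P.form := by
    rw [injective_iff_map_eq_zero]
    intro x hx
    exact P.nondeg x fun y => by rw [hx]; rfl
  let e : P.V ≃ₗ[K] Module.Dual K P.V :=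
    P.form.linearEquivOfInjective hinj Subspace.dual_finrank_eq.symm
  refine ⟨e.symm.toLinearMap ∘ₗ b, fun x y => ?_⟩
  have h1 : P.form (e.symm (b x)) = b x := by
    have h2 : P.form (e.symm (b x)) = e (e.symm (b x)) := rfl
    rw [h2, e.apply_symm_apply]
  change P.form (e.symm (b x)) y = b x y
  rw [h1]

theorem PRep.sign_sq (P : PRep K Γ) : ((P.sign : ℤ) : K) * ((P.sign : ℤ) : K) = 1 := by
  have h1 : ((P.sign : ℤ)) * ((P.sign : ℤ)) = 1 := by
    rw [← Units.val_mul, Int.units_mul_self, Units.val_one]
  exact_mod_cast h1

/-- The dimension of the Lie algebra is the number of pairs of indices. -/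
theorem PRep.finrank_skew_aux (P : PRep K Γ) (R : Fin (finrank K P.V) → Fin (finrank K P.V) → Prop)
    [DecidableRel R] (h1 : ∀ i j, R i j ∨ R j i ∨ (i = j ∧ P.sign = 1))
    (h2 : ∀ i j, R i j → R j i → i = j ∧ P.sign = -1) :
    finrank K P.skew = Fintype.card {p : Fin (finrank K P.V) × Fin (finrank K P.V) // R p.1 p.2} := by
  classical
  let e := Module.finBasis K P.V
  have hsk : ∀ X ∈ P.skew, ∀ x y, P.form (X y) x = -(((P.sign : ℤ) : K) * P.form (X x) y) := by
    intro X hX x y
    have h3 := hX y x
    have h4 := P.symm y (X x)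
    rw [h4] at h3
    linear_combination h3
  let Φ : P.skew →ₗ[K] ({p : Fin (finrank K P.V) × Fin (finrank K P.V) // R p.1 p.2} → K) :=
    { toFun := fun X p => P.form (X.1 (e p.1.1)) (e p.1.2)
      map_add' := fun X Y => by
        funext p
        change P.form ((X.1 + Y.1) _) _ = _
        rw [LinearMap.add_apply, map_add, LinearMap.add_apply]
        rfl
      map_smul' := fun r X => by
        funext p
        change P.form ((r • X.1) _) _ = _
        rw [LinearMap.smul_apply, map_smul, LinearMap.smul_apply]
        rfl }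
  have hΦ : ∀ X p, Φ X p = P.form (X.1 (e p.1.1)) (e p.1.2) := fun _ _ => rfl
  have hinj : Injective Φ := by
    rw [injective_iff_map_eq_zero]
    intro X hX
    have h3 : ∀ i j, R i j → P.form (X.1 (e i)) (e j) = 0 := by
      intro i j hij
      have h4 := congrFun hX ⟨(i, j), hij⟩
      exact h4
    have h4 : ∀ i j, P.form (X.1 (e i)) (e j) = 0 := by
      intro i j
      rcases h1 i j with h | h | ⟨rfl, h⟩
      · exact h3 i j h
      · rw [hsk X.1 X.2, h3 j i h, mul_zero, neg_zero]
      · have h5 := hsk X.1 X.2 (e i) (e i)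
        rw [h] at h5
        simp only [Units.val_one, Int.cast_one, one_mul] at h5
        have h6 : (2 : K) * P.form (X.1 (e i)) (e i) = 0 := by linear_combination h5
        exact (mul_eq_zero.1 h6).resolve_left two_ne_zero
    apply Subtype.ext
    refine e.ext fun i => ?_
    refine P.nondeg _ fun y => ?_
    have h5 : P.form (X.1 (e i)) = 0 := e.ext fun j => h4 i j
    rw [h5]
    rfl
  have hsurj : Surjective Φ := by
    intro c
    let M : Fin (finrank K P.V) → Fin (finrank K P.V) → K := fun i j =>
      if h : R i j then c ⟨(i, j), h⟩ else if h : R j i then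
        -(((P.sign : ℤ) : K) * c ⟨(j, i), h⟩) else 0
    have hM : ∀ i j, R i j → M j i = -(((P.sign : ℤ) : K) * M i j) := by
      intro i j hij
      by_cases hji : R j i
      · obtain ⟨rfl, h3⟩ := h2 i j hij hji
        rw [h3]
        simp
      · have e1 : M i j = c ⟨(i, j), hij⟩ := dif_pos hij
        have e2 : M j i = -(((P.sign : ℤ) : K) * c ⟨(i, j), hij⟩) := by
          change (if h : R j i then _ else if h : R i j then _ else _) = _
          rw [dif_neg hji, dif_pos hij]
        rw [e1, e2]
    have hM' : ∀ i j, M j i = -(((P.sign : ℤ) : K) * M i j) := by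
      intro i j
      by_cases hij : R i j
      · exact hM i j hij
      · by_cases hji : R j i
        · rw [hM j i hji]
          linear_combination (-(M j i)) * P.sign_sq
        · have e1 : M i j = 0 := by
            change (if h : R i j then _ else if h : R j i then _ else _) = _
            rw [dif_neg hij, dif_neg hji]
          have e2 : M j i = 0 := by
            change (if h : R j i then _ else if h : R i j then _ else _) = _
            rw [dif_neg hji, dif_neg hij]
          rw [e1, e2, mul_zero, neg_zero]
    let b : P.V →ₗ[K] P.V →ₗ[K] K := e.constr K fun i => e.constr K fun j => M i j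
    have hb : ∀ i j, b (e i) (e j) = M i j := by
      intro i j
      change (e.constr K fun i => e.constr K fun j => M i j) (e i) (e j) = M i j
      rw [e.constr_basis, e.constr_basis]
    obtain ⟨X, hX⟩ := P.exists_op b
    have hXs : X ∈ P.skew := by
      have h3 : b.flip = -(((P.sign : ℤ) : K) • b) := by
        refine e.ext fun i => e.ext fun j => ?_
        change b (e j) (e i) = -(((P.sign : ℤ) : K) * b (e i) (e j))
        rw [hb, hb, hM']
      intro x y
      have h4 : b y x = -(((P.sign : ℤ) : K) * b x y) := by
        have h5 := congrArg (fun f => f x y) h3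
        exact h5
      rw [hX, P.symm, hX, h4]
      linear_combination (-(b x y)) * P.sign_sq
    refine ⟨⟨X, hXs⟩, ?_⟩
    funext p
    rw [hΦ]
    change P.form (X (e p.1.1)) (e p.1.2) = c p
    rw [hX, hb]
    exact dif_pos p.2
  rw [LinearEquiv.finrank_eq (LinearEquiv.ofBijective Φ ⟨hinj, hsurj⟩), Module.finrank_fintype_fun_eq_card]

/-- **The dimension of the orthogonal and symplectic Lie algebras.** -/
theorem PRep.finrank_skew (P : PRep K Γ) : 2 * (finrank K P.skew : ℤ) =
    (finrank K P.V : ℤ) * ((finrank K P.V : ℤ) - (P.sign : ℤ)) := by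
  obtain ⟨h1, h2⟩ := card_pairs (finrank K P.V)
  rcases Int.units_eq_one_or P.sign with hs | hs
  · rw [P.finrank_skew_aux (fun i j => i < j) (fun i j => ?_) (fun i j h h' =>
      absurd h' (lt_asymm h)), hs]
    · push_cast [Units.val_one]
      zify at h1
      linear_combination h1
    · rcases lt_trichotomy i j with h | h | h
      · exact Or.inl h
      · exact Or.inr (Or.inr ⟨h, hs⟩)
      · exact Or.inr (Or.inl h)
  · rw [P.finrank_skew_aux (fun i j => i ≤ j) (fun i j => (le_total i j).imp id Or.inl)
      (fun i j h h' => ⟨le_antisymm h h', hs⟩), hs]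
    push_cast [Units.val_neg, Units.val_one]
    zify at h1 h2
    rw [h2]
    linear_combination h1

theorem PRep.wt_zero (P : PRep K Γ) : P.wt 0 0 = finrank K P.skew := by
  have h1 : adm (0 : End K P.V) = 0 := by
    apply LinearMap.ext
    intro X
    change 0 * X - X * 0 = 0
    rw [zero_mul, mul_zero, sub_zero]
  have h2 : (0 : End K (End K P.V)).maxGenEigenspace 0 = ⊤ := by
    rw [eq_top_iff]
    intro X _
    rw [Module.End.mem_maxGenEigenspace]
    exact ⟨1, by simp⟩
  rw [PRep.wt, h1, h2, inf_top_eq]

/-- **The criterion by the dimensions.** -/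
theorem smaller_of_size {Q P : PRep K Γ} (h : Q.size < P.size) : Smaller Q P := by
  rw [smaller_iff]
  refine ⟨1, 0, 0, 0, 0, ?_, ?_, ?_⟩
  · intro a x _
    rw [LinearMap.zero_apply, AddMonoidHom.zero_apply, zero_smul]
  · intro a x _
    rw [LinearMap.zero_apply, AddMonoidHom.zero_apply, zero_smul]
  · rw [PRep.wt_zero, PRep.wt_zero]
    have h1 := Q.finrank_skew
    have h2 := P.finrank_skew
    rw [PRep.size, PRep.size, PRep.dim, PRep.dim, ← h1, ← h2] at h
    omega

end Pool.Agent.H802T
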