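import Pool.Agent.H802T.Prod

/-!
# The Tate conjecture for towers of products with powers
-/

open CategoryTheory AlgebraicGeometry Finset Function

set_option linter.unusedSectionVars false

universe u

namespace Pool.Agent.H802T

open Pool.Agent.TH125.Gal
open Pool.Agent.H914 Pool.Agent.H914.VarClass Pool.Agent.H914.VarClass.Obj
  Pool.Agent.H914.WeilCohomology Pool.Agent.H281R3.HT Pool.Agent.W552

variable {k : Type u} [Field k] {𝒱 : VarClass k} {ops : CycleOps 𝒱}
  {W : WeilCohomology.{u, 0} ops} {Γ : Type} [Group Γ] {χ : Γ →* W.Kˣ}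

/-- the family of all representations -/
def total {ι N : Type} (T : ι → PRep W.K Γ) (G : N → PRep W.K Γ) :
    ι ⊕ N → PRep W.K Γ := Sum.elim T G

variable {ι N : Type} {X : ι → GVar W Γ} {T : ι → PRep W.K Γ} {G : N → PRep W.K Γ} {Z : GVar W Γ}

theorem Independent.total (h : Independent χ X T G) (i : ι) (j : ι ⊕ N) (hj : j ≠ Sum.inl i) :
    Unrelated (total T G j) (total T G (Sum.inl i)) := by
  rcases j with j | j
  · exact h.unrelated i j fun h' => hj (h' ▸ rfl)
  · exact h.unrelated' i j

theorem generated_base (hZ : GeneratedBy G Z) (A : Set (ι ⊕ N)) (hA : Set.range Sum.inr ⊆ A) :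
    Generated (total T G) A fun g => (Z.act g).toLinearMap := by
  intro x hx
  obtain ⟨J, ⟨v, hv⟩, Δ, hΔ, h1⟩ := hZ x hx
  obtain ⟨J', hJ'⟩ := J.exists_linear
  exact ⟨J.I, J.fin, fun i => Sum.inr (J.c i), J', fun i => hA ⟨_, rfl⟩, ⟨Δ, hΔ, fun g hg => by
    obtain ⟨μ, hμ⟩ := h1 g hg
    refine ⟨μ, fun z v => ?_⟩
    have h2 := hμ z v
    rw [← hJ', ← hJ'] at h2
    exact h2⟩, fun h0 => hv ((hJ' x v).symm.trans
      (congrArg (fun f : MultilinearMap W.K (fun i => (G (J.c i)).V) W.K => f v) h0))⟩

theorem whole_of [IsAlgClosed W.K] [Finite ι] [Finite N] (h : Independent χ X T G) {Y : GVar W Γ}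
    {i : ι} {A : Set (ι ⊕ N)} (hA : Sum.inl i ∉ A)
    (hY : Generated (total T G) A fun g => (Y.act g).toLinearMap) :
    Whole (P := ⟨(X i).X, 0⟩) (Z := Y.X) (isGalois (h.galois i)) Y.act := by
  classical
  have := Fintype.ofFinite ι
  have := Fintype.ofFinite N
  obtain ⟨e, he, hform⟩ := h.trans i
  intro S _ _ lam φ hφ Y' hY' v
  obtain ⟨Δ, hΔ, h1⟩ := hφ
  have h2 := kill_of_generated (F := Pool.Agent.H802T.total T G) (o := Sum.inl i)
    ((T i).big_iff.1 (h.big i))
    (h.hyperbolic i) (h.total i) hA hY (S := S)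
    (h := (φ.compLinearMap fun _ => e.toLinearMap : MultilinearMap W.K (fun _ : S => (T i).V)
      (W.H Y.X)))
    ⟨Δ, hΔ, fun g hg => ⟨(lam g : W.K), fun v => ?_⟩⟩
    (X := (e.symm.toLinearMap ∘ₗ Y' ∘ₗ e.toLinearMap : Module.End W.K (T i).V)) ?_
    (fun j => e.symm (v j))
  · rw [← h2]
    refine Finset.sum_congr rfl fun j _ => ?_
    have h3 : (fun l => e (update (fun j => e.symm (v j)) j (e.symm (Y' (e (e.symm (v j))))) l)) =
        update v j (Y' (v j)) := by
      funext l
      by_cases hl : l = j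
      · subst hl
        rw [update_self, update_self, LinearEquiv.apply_symm_apply, LinearEquiv.apply_symm_apply]
      · rw [update_of_ne hl, update_of_ne hl, LinearEquiv.apply_symm_apply]
    exact (congrArg φ h3).symm
  · have h4 : (fun j => e ((T i).ρ g (v j))) =
        fun j => rhoT (isGalois (h.galois i)) g (e (v j)) := by
      funext j
      exact Subtype.ext (he g (v j))
    exact (congrArg φ h4).trans (h1 g hg fun j => e (v j))
  · intro x y
    have h5 := hY' (e x) (e y)
    change val (T i).form (e.symm (Y' (e x))) y + val (T i).form x (e.symm (Y' (e y))) = 0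
    rw [hform, hform, LinearEquiv.apply_symm_apply, LinearEquiv.apply_symm_apply]
    exact h5

/-- **The Tate conjecture for towers.** -/
theorem tate_towers [IsAlgClosed W.K] [Finite ι] [Finite N] (h : Independent χ X T G)
    (hZ : GeneratedBy G Z) {S : Set ι} {Y : GVar W Γ} (hY : Tower X T Z S Y) :
    (Generated (total T G) (Sum.inl '' S ∪ Set.range Sum.inr) fun g => (Y.act g).toLinearMap) ∧
      (TateConjecture χ Y ↔ TateConjecture χ Z) := by
  induction hY with
  | base => exact ⟨generated_base hZ _ Set.subset_union_right, Iff.rfl⟩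
  | @step S Y Y' i n hT hi hn hP ih =>
    obtain ⟨ihg, iht⟩ := ih
    obtain ⟨YX, υ⟩ := Y'
    obtain ⟨h0, h1, h2⟩ := hP
    change YX = powTimes (X i) n Y at h0
    subst h0
    simp only [eqToHom_refl, Category.id_comp] at h1 h2
    have hnot : Sum.inl i ∉ (Sum.inl '' S ∪ Set.range Sum.inr : Set (ι ⊕ N)) := by
      rintro (⟨j, hj, h3⟩ | ⟨j, h3⟩)
      · exact hi (Sum.inl.inj h3 ▸ hj)
      · exact Sum.inr_ne_inl h3
    have hPA := isPowAct h1 h2
    obtain ⟨e, he, hform⟩ := h.trans i
    refine ⟨?_, ?_⟩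
    · have h3 := generated_prod (P := ⟨(X i).X, 0⟩) (F := total T G) (h.homEqNum i)
        (isGalois (h.galois i)) hPA ihg (Sum.inl i) e.toLinearMap e.surjective
        (fun g x => Subtype.ext (he g x))
      have h4 : insert (Sum.inl i) (Sum.inl '' S ∪ Set.range Sum.inr : Set (ι ⊕ N)) =
          Sum.inl '' (insert i S) ∪ Set.range Sum.inr := by
        rw [Set.image_insert_eq, Set.insert_union]
      rw [← h4]
      exact h3
    · rw [← iht]
      constructor
      · refine tate_conv (P := ⟨(X i).X, 0⟩) (h.homEqNum i) ?_ hPA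
        intro h3
        obtain ⟨-, x, -, hx, -⟩ := h.hyperbolic i
        have h4 : ∀ z : transcendental W (X i).X, z = 0 := by
          intro z
          apply Subtype.ext
          change (z : W.H (X i).X) = 0
          rw [← one_mul (z : W.H (X i).X), h3, zero_mul]
        exact hx (e.injective (by rw [h4 (e x), map_zero]))
      · exact tate_step2 (P := ⟨(X i).X, 0⟩) (h.homEqNum i) (h.middle i)
          (isGalois (h.galois i)) hPA (fun h' => (hn h').trans_eq e.finrank_eq)
          (whole_of h hnot ihg)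

end Pool.Agent.H802T
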