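import Pool.Agent.H802T.Dee
import Pool.Agent.H802T.Tower
import Pool.Agent.TH125.Gal.Lef

/-!
# The conjectures D and A for towers of products with powers
-/

open CategoryTheory AlgebraicGeometry Finset Function

set_option linter.unusedSectionVars false

universe u

namespace Pool.Agent.H802T

open Pool.Agent.TH125.Gal
open Pool.Agent.H914 Pool.Agent.H914.VarClass Pool.Agent.H914.VarClass.Obj
  Pool.Agent.H914.WeilCohomology Pool.Agent.H281R3.HT Pool.Agent.W552

variable {k : Type u} [Field k] {𝒱 : VarClass k} {ops : CycleOps 𝒱}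
  {W : WeilCohomology.{u, 0} ops} {Γ : Type} [Group Γ] {χ : Γ →* W.Kˣ}

section step

variable [IsAlgClosed W.K] {P : Polarized 𝒱} {n : ℕ} {Z : 𝒱.Obj}
    {ρ : Γ →* (W.H P.X ≃ₐ[W.K] W.H P.X)}
    {τ : Γ →* (W.H Z ≃ₐ[W.K] W.H Z)}
    {υ : Γ →* (W.H ((nest ops n fun _ => P).X.prod Z) ≃ₐ[W.K]
      W.H ((nest ops n fun _ => P).X.prod Z))}
    (hDX : HomEqNum W P.X) (hmid : transcendental W P.X ≤ W.gr P.X P.X.dim)
    (hG : IsGalois W χ P.X ρ) (hP : IsPowAct W P n Z ρ τ υ)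
    (hU : IsGalois W χ ((nest ops n fun _ => P).X.prod Z) υ)
    (hK : Even P.X.dim → n + 1 < Module.finrank W.K (transcendental W P.X))
    (hfull : Whole hG τ) (h1 : (1 : W.H P.X) ≠ 0)

include hDX hmid hG hP hU hK hfull

theorem lspan_of_AS {c : W.H ((nest ops n fun _ => P).X.prod Z)} (hc : W552.AS W _ c) :
    c ∈ LSpan W (nest ops n fun _ => P).X Z := by
  obtain ⟨s⟩ := exists_SB hDX
  obtain ⟨b, hb⟩ := exists_monoBasis (ops := ops) P s.e n
  refine W552.AS.ind (p := fun c => c ∈ LSpan W (nest ops n fun _ => P).X Z) ?_ ?_ hc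
  · intro j c hc
    obtain ⟨Δ, hΔ, h1⟩ := hU.cl_fix j c hc
    have h2 := mem_Tgt2 hb hDX hmid hG hP hK hfull hΔ h1
    refine Submodule.span_mono ?_ h2
    rintro c ⟨S, i, m, w, hm, rfl⟩
    exact ⟨m, hm.alg hDX hmid, w, rfl⟩
  · intro x y hx hy
    exact Submodule.add_mem _ hx hy

/-- The algebraic cycles on a product split. -/
theorem clSplit2 (hZ1 : (1 : W.H Z) ≠ 0) :
    TH132.A.ClSplit W (nest ops n fun _ => P).X Z := by
  have hD := (homEqNum_pow hDX hmid hG hP hU hK hfull).2 hZ1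
  exact TH132.A.clSplit_of_tens fun z hz => TH132.A.mem_tens hD hz
    (lspan_le (lspan_of_AS hDX hmid hG hP hU hK hfull hz))

include h1

theorem nest_one_ne2 : (1 : W.H (nest ops n fun _ => P).X) ≠ 0 := by
  obtain ⟨x, hx⟩ := exists_tr h1
  have h2 : W.tr (nest ops n fun _ => P).X
      (mono (prj ops n fun _ => P) fun _ => x) ≠ 0 := by
    rw [tr_mono]
    exact pow_ne_zero _ hx
  intro h0
  apply h2
  rw [← one_mul (mono _ _), h0, zero_mul, map_zero]

/-- **The conjecture D for products with powers.** -/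
theorem homEqNum_iff_pow :
    HomEqNum W ((nest ops n fun _ => P).X.prod Z) ↔ HomEqNum W Z := by
  refine ⟨fun h => ?_, (homEqNum_pow hDX hmid hG hP hU hK hfull).1⟩
  obtain ⟨x, hx⟩ := exists_tr h1
  have h2 : W.tr (nest ops n fun _ => P).X (mono (prj ops n fun _ => P) fun _ => x) ≠ 0 := by
    rw [tr_mono]
    exact pow_ne_zero _ hx
  exact homEqNum_factor h2 h

end step

theorem nest_hard2 {P : Polarized 𝒱} {D : P.X.Cycles} (hdiv : P.X.IsCyc 1 D)
    (hHL : HardLefschetz W P.X D) (m : ℕ) : ∃ E, (nest ops m fun _ => P).X.IsCyc 1 E ∧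
    HardLefschetz W (nest ops m fun _ => P).X E := by
  induction m with
  | zero => exact ⟨D, hdiv, hHL⟩
  | succ m ih =>
    obtain ⟨E, h1, h2⟩ := ih
    exact ⟨_, SmVar.IsCyc.add (ops.pull_mem _ hdiv) (ops.pull_mem _ h1),
      hardLefschetz_prod hdiv h1 hHL h2⟩

/-- **The conjecture A for products with powers and all divisors.** -/
theorem lefAll_iff_pow [IsAlgClosed W.K] {P : Polarized 𝒱} {n : ℕ} {Z : 𝒱.Obj}
    {ρ : Γ →* (W.H P.X ≃ₐ[W.K] W.H P.X)}
    {τ : Γ →* (W.H Z ≃ₐ[W.K] W.H Z)}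
    {υ : Γ →* (W.H ((nest ops n fun _ => P).X.prod Z) ≃ₐ[W.K]
      W.H ((nest ops n fun _ => P).X.prod Z))}
    (hDX : HomEqNum W P.X) (hmid : transcendental W P.X ≤ W.gr P.X P.X.dim)
    (hG : IsGalois W χ P.X ρ) (hP : IsPowAct W P n Z ρ τ υ)
    (hU : IsGalois W χ ((nest ops n fun _ => P).X.prod Z) υ)
    (hK : Even P.X.dim → n + 1 < Module.finrank W.K (transcendental W P.X))
    (hfull : Whole hG τ) (h1 : (1 : W.H P.X) ≠ 0)
    {D : P.X.Cycles} (hdiv : P.X.IsCyc 1 D) (hHL : HardLefschetz W P.X D) :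
    LefAll W ((nest ops n fun _ => P).X.prod Z) ↔ LefAll W Z := by
  by_cases hB1 : (1 : W.H Z) = 0
  · refine iff_of_true (fun _ _ _ => lefschetzA_of_zero ?_ _)
      (fun _ _ _ => lefschetzA_of_zero hB1 _)
    rw [← map_one (W.map (snd _ Z)), hB1, map_zero]
  have hP1 := nest_one_ne2 hDX hmid hG hP hU hK hfull h1
  have hD := (homEqNum_pow hDX hmid hG hP hU hK hfull).2 hB1
  have hS := clSplit2 hDX hmid hG hP hU hK hfull hB1
  obtain ⟨C0, hPd, hPL⟩ := nest_hard2 (ops := ops) hdiv hHL n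
  constructor
  · intro h1 E hE hHLE
    refine (TH132.A.lefschetzA_prod_iff hS hPd hE
      (SmVar.IsCyc.add (ops.pull_mem _ hPd) (ops.pull_mem _ hE)) ?_ hPL hHLE
      (lefschetzA_of_D hPd hPL hD) hP1).1 (h1 _
      (SmVar.IsCyc.add (ops.pull_mem _ hPd) (ops.pull_mem _ hE))
      (hardLefschetz_prod hPd hE hPL hHLE))
    show W.cl _ (ops.pull _ _ + ops.pull _ _) = _
    rw [map_add, W.cl_pull, W.cl_pull]
  · intro h1 C hC hHLC
    obtain ⟨D', E', hD', hE', hDE⟩ := TH132.A.div_split hS hC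
    have h2 := TH132.A.hl_left hD' hE' hDE hHLC hB1
    have h3 := TH132.A.hl_right hE' hD' hDE hHLC hP1
    exact (TH132.A.lefschetzA_prod_iff hS hD' hE' hC hDE h2 h3
      (lefschetzA_of_D hD' h2 hD) hP1).2 (h1 E' hE' h3)

variable {ι N : Type} {X : ι → GVar W Γ} {T : ι → PRep W.K Γ} {G : N → PRep W.K Γ} {Z : GVar W Γ}

theorem Independent.one_ne (h : Independent χ X T G) (i : ι) : (1 : W.H (X i).X) ≠ 0 := by
  obtain ⟨e, -, -⟩ := h.trans i
  intro h3
  obtain ⟨-, x, -, hx, -⟩ := h.hyperbolic i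
  have h4 : ∀ z : transcendental W (X i).X, z = 0 := by
    intro z
    apply Subtype.ext
    change (z : W.H (X i).X) = 0
    rw [← one_mul (z : W.H (X i).X), h3, zero_mul]
  exact hx (e.injective (by rw [h4 (e x), map_zero]))

/-- **The conjecture D for towers.** -/
theorem homEqNum_towers [IsAlgClosed W.K] [Finite ι] [Finite N] (h : Independent χ X T G)
    (hZ : GeneratedBy G Z) (hgal : ∀ S Y, Tower X T Z S Y → IsGaloisVar χ Y)
    {S : Set ι} {Y : GVar W Γ} (hY : Tower X T Z S Y) : HomEqNum W Y.X ↔ HomEqNum W Z.X := by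
  induction hY with
  | base => exact Iff.rfl
  | @step S Y Y' i n hT hi hn hP ih =>
    have hY' := hgal _ _ (Tower.step i n hT hi hn hP)
    obtain ⟨YX, υ⟩ := Y'
    obtain ⟨h0, h1, h2⟩ := hP
    change YX = powTimes (X i) n Y at h0
    subst h0
    simp only [eqToHom_refl, Category.id_comp] at h1 h2
    have hnot : Sum.inl i ∉ (Sum.inl '' S ∪ Set.range Sum.inr : Set (ι ⊕ N)) := by
      rintro (⟨j, hj, h3⟩ | ⟨j, h3⟩)
      · exact hi (Sum.inl.inj h3 ▸ hj)
      · exact Sum.inr_ne_inl h3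
    have hPA := isPowAct h1 h2
    obtain ⟨e, he, hform⟩ := h.trans i
    rw [← ih]
    exact homEqNum_iff_pow (P := ⟨(X i).X, 0⟩) (h.homEqNum i) (h.middle i)
      (isGalois (h.galois i)) hPA (isGalois hY') (fun h' => (hn h').trans_eq e.finrank_eq)
      (whole_of h hnot (tate_towers h hZ hT).1) (h.one_ne i)

/-- **The conjecture A for towers.** -/
theorem lefAll_towers [IsAlgClosed W.K] [Finite ι] [Finite N] (h : Independent χ X T G)
    (hZ : GeneratedBy G Z) (hgal : ∀ S Y, Tower X T Z S Y → IsGaloisVar χ Y)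
    (hHL : ∀ i, ∃ D, (X i).X.IsCyc 1 D ∧ HardLefschetz W (X i).X D)
    {S : Set ι} {Y : GVar W Γ} (hY : Tower X T Z S Y) : LefAll W Y.X ↔ LefAll W Z.X := by
  induction hY with
  | base => exact Iff.rfl
  | @step S Y Y' i n hT hi hn hP ih =>
    have hY' := hgal _ _ (Tower.step i n hT hi hn hP)
    obtain ⟨YX, υ⟩ := Y'
    obtain ⟨h0, h1, h2⟩ := hP
    change YX = powTimes (X i) n Y at h0
    subst h0
    simp only [eqToHom_refl, Category.id_comp] at h1 h2
    have hnot : Sum.inl i ∉ (Sum.inl '' S ∪ Set.range Sum.inr : Set (ι ⊕ N)) := by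
      rintro (⟨j, hj, h3⟩ | ⟨j, h3⟩)
      · exact hi (Sum.inl.inj h3 ▸ hj)
      · exact Sum.inr_ne_inl h3
    have hPA := isPowAct h1 h2
    obtain ⟨e, he, hform⟩ := h.trans i
    obtain ⟨D, hD, hDL⟩ := hHL i
    rw [← ih]
    exact lefAll_iff_pow (P := ⟨(X i).X, 0⟩) (h.homEqNum i) (h.middle i)
      (isGalois (h.galois i)) hPA (isGalois hY') (fun h' => (hn h').trans_eq e.finrank_eq)
      (whole_of h hnot (tate_towers h hZ hT).1) (h.one_ne i) hD hDL

end Pool.Agent.H802T
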