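import Pool.Agent.H802T.PubA
import Pool.Agent.H802T.TwrD
import Pool.Agent.H802T.Dim

/-!
# The conjecture A for towers, in terms of the cohomology algebra
-/

open CategoryTheory AlgebraicGeometry Module

universe u

namespace Pool.Agent.H802T

open Pool.Agent.H914 Pool.Agent.H281R3.HT Pool.Agent.TH125.Gal VarClass Obj WeilCohomology

variable {k : Type u} [Field k] {𝒱 : VarClass k} {ops : CycleOps 𝒱}
  {W : WeilCohomology.{u, 0} ops} {Γ : Type} [Group Γ] {χ : Γ →* W.Kˣ}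

theorem hardElt_iff (X : 𝒱.Obj) (D : X.Cycles) :
    HardElt (W.gr X) X.dim (W.cl X D) ↔ HardLefschetz W X D := by
  unfold HardElt HardLefschetz HardLef
  simp only [LinearMap.pow_mulLeft, LinearMap.mulLeft_apply]

theorem conjA_iff (X : 𝒱.Obj) : ConjA (W.gr X) (algClasses W X) X.dim ↔ LefAll W X := by
  unfold ConjA LefAll LefschetzA
  constructor
  · intro h D hD hHL j hj z hz
    obtain ⟨c', ⟨z', h1, h2⟩, h3⟩ := h _ ⟨D, hD, rfl⟩ ((hardElt_iff X D).2 hHL) j hj _ ⟨z, hz, rfl⟩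
    refine ⟨z', h1, ?_⟩
    rw [cl_divPow, LinearMap.pow_mulLeft, LinearMap.mulLeft_apply, h2, h3]
  · rintro h _ ⟨D, hD, rfl⟩ hHL j hj _ ⟨z, hz, rfl⟩
    obtain ⟨z', h1, h2⟩ := h D hD ((hardElt_iff X D).1 hHL) j hj z hz
    refine ⟨_, ⟨z', h1, rfl⟩, ?_⟩
    rw [← h2, cl_divPow, LinearMap.pow_mulLeft, LinearMap.mulLeft_apply]

/-- **The conjecture A for towers.** -/
theorem conjA_towers [IsAlgClosed W.K] {ι N : Type} [Finite ι] [Finite N] {X : ι → GVar W Γ}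
    {T : ι → PRep W.K Γ} {G : N → PRep W.K Γ} {Z : GVar W Γ} (h : Independent χ X T G)
    (hZ : GeneratedBy G Z) (hgal : ∀ S Y, Tower X T Z S Y → IsGaloisAct χ (W.gr Y.X) Y.X.dim
      (W.tr Y.X) (algClasses W Y.X) Y.act)
    (hHL : ∀ i, ∃ d ∈ algClasses W (X i).X 1, HardElt (W.gr (X i).X) (X i).X.dim d)
    {S : Set ι} {Y : GVar W Γ} (hY : Tower X T Z S Y) :
    ConjA (W.gr Y.X) (algClasses W Y.X) Y.X.dim ↔
      ConjA (W.gr Z.X) (algClasses W Z.X) Z.X.dim := by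
  rw [conjA_iff, conjA_iff]
  refine lefAll_towers h hZ hgal (fun i => ?_) hY
  obtain ⟨_, ⟨D, hD, rfl⟩, h1⟩ := hHL i
  exact ⟨D, hD, (hardElt_iff _ D).1 h1⟩

end Pool.Agent.H802T
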