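import Pool.Agent.H802U.Grp

/-!
# The comparison of dimensions
-/

set_option autoImplicit false
set_option linter.unusedSectionVars false

namespace Pool.Agent.H802T

open Module Finset Function
open Pool.Agent.TH118.SG (ext0 ext0_ne ext0_mul exists_op op_ext deriv_op mem_gen)

section gen

variable {K : Type} [Field K] {E M : Type} [AddCommGroup E] [Module K E] [AddCommGroup M]
  [Module K M] {f : End K E} {f' : End K M} {π : E →ₗ[K] M} (hπ : ∀ x, π (f x) = f' (π x))

include hπ

theorem map_gen {k : K} {x : E} (hx : x ∈ f.maxGenEigenspace k) :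
    π x ∈ f'.maxGenEigenspace k := by
  obtain ⟨n, hn⟩ := mem_gen.1 hx
  refine mem_gen.2 ⟨n, ?_⟩
  have h1 : ∀ (n : ℕ) x, ((f' - algebraMap K (End K M) k) ^ n) (π x) =
      π (((f - algebraMap K (End K E) k) ^ n) x) := by
    intro n
    induction n with
    | zero => exact fun x => rfl
    | succ n ih =>
      intro x
      rw [pow_succ, pow_succ, Module.End.mul_apply, Module.End.mul_apply, ← ih]
      congr 1
      rw [LinearMap.sub_apply, LinearMap.sub_apply, Module.algebraMap_end_apply,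
        Module.algebraMap_end_apply, map_sub, map_smul, hπ]
  rw [h1, hn, map_zero]

/-- Generalized eigenvectors in the image lift to generalized eigenvectors. -/
theorem lift_gen [IsAlgClosed K] [FiniteDimensional K E] {k : K} {y : E}
    (hx : π y ∈ f'.maxGenEigenspace k) : ∃ z ∈ f.maxGenEigenspace k, π z = π y := by
  have h1 : y ∈ ⨆ μ, f.maxGenEigenspace μ := by
    rw [Module.End.iSup_maxGenEigenspace_eq_top f]
    exact Submodule.mem_top
  have h2 : (⨆ μ, f.maxGenEigenspace μ) ≤
      f.maxGenEigenspace k ⊔ ⨆ μ, ⨆ _ : μ ≠ k, f.maxGenEigenspace μ := by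
    refine iSup_le fun μ => ?_
    by_cases hμ : μ = k
    · subst hμ
      exact le_sup_left
    · exact le_sup_of_le_right (le_iSup₂_of_le μ hμ le_rfl)
  obtain ⟨z, hz, w, hw, hzw⟩ := Submodule.mem_sup.1 (h2 h1)
  refine ⟨z, hz, ?_⟩
  have h3 : π w ∈ ⨆ μ, ⨆ _ : μ ≠ k, f'.maxGenEigenspace μ := by
    have h4 : (⨆ μ, ⨆ _ : μ ≠ k, f.maxGenEigenspace μ) ≤
        (⨆ μ, ⨆ _ : μ ≠ k, f'.maxGenEigenspace μ).comap π := by
      refine iSup₂_le fun μ hμ x hx => ?_
      exact (le_iSup₂_of_le (f := fun (μ : K) (_ : μ ≠ k) => f'.maxGenEigenspace μ) μ hμ le_rfl :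
        f'.maxGenEigenspace μ ≤ _) (map_gen hπ hx)
    exact h4 hw
  have h5 : π w ∈ f'.maxGenEigenspace k := by
    have h6 : π w = π y - π z := by rw [← hzw, map_add, add_sub_cancel_left]
    rw [h6]
    exact Submodule.sub_mem _ hx (map_gen hπ hz)
  have h7 := (Module.End.independent_maxGenEigenspace f') k
  have h8 : π w = 0 := (Submodule.disjoint_def.1 h7) _ h5 h3
  rw [← hzw, map_add, h8, add_zero]

end gen

theorem finrank_map_le' {K E M M' : Type} [Field K] [AddCommGroup E] [Module K E] [AddCommGroup M]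
    [Module K M] [AddCommGroup M'] [Module K M'] [FiniteDimensional K E] (W : Submodule K E)
    (p : E →ₗ[K] M) (q : E →ₗ[K] M') (h : ∀ x ∈ W, q x = 0 → p x = 0) :
    finrank K (W.map p) ≤ finrank K (W.map q) := by
  have h1 := LinearMap.finrank_range_add_finrank_ker (p.domRestrict W)
  have h2 := LinearMap.finrank_range_add_finrank_ker (q.domRestrict W)
  have h3 : LinearMap.ker (q.domRestrict W) ≤ LinearMap.ker (p.domRestrict W) := by
    intro x hx
    exact h x x.2 hx
  have h4 := Submodule.finrank_mono h3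
  have h5 : LinearMap.range (p.domRestrict W) = W.map p := LinearMap.range_domRestrict _ _
  have h6 : LinearMap.range (q.domRestrict W) = W.map q := LinearMap.range_domRestrict _ _
  rw [h5] at h1
  rw [h6] at h2
  omega

variable {K : Type} [Field K] [CharZero K] [IsAlgClosed K] {Γ : Type} [Group Γ] {N : Type}
  [Fintype N] [DecidableEq N] {F : N → PRep K Γ}

variable (F) in
/-- the projection -/
def prj' (o : N) : ↥(LieP F) →ₗ[K] End K (F o).V := LinearMap.proj o ∘ₗ (LieP F).subtype

/-- the bracket with an element -/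
def adL {D : ∀ j, End K (F j).V} (hD : D ∈ LieP F) : End K ↥(LieP F) where
  toFun Y := ⟨D * Y.1 - Y.1 * D, LieP_bracket hD Y.2⟩
  map_add' Y Y' := by
    apply Subtype.ext
    change D * (Y.1 + Y'.1) - (Y.1 + Y'.1) * D = _
    rw [mul_add, add_mul, add_sub_add_comm]
    rfl
  map_smul' r Y := by
    apply Subtype.ext
    change D * (r • Y.1) - (r • Y.1) * D = r • (D * Y.1 - Y.1 * D)
    rw [mul_smul_comm, smul_mul_assoc, smul_sub]

/-- **The comparison of the dimensions of graded parts.** -/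
theorem wt_le {o j : N} (h0 : van F o ∅ = (F o).skew) (h1 : van F o {j} = ⊥) {g : Γ}
    {θ : Additive Kˣ →+ K} {D : End K (F o).V} {D' : End K (F j).V}
    (hD : IsSlope θ ((F o).ρ g) D) (hD' : IsSlope θ ((F j).ρ g) D') (k : K) :
    (F o).wt D k ≤ (F j).wt D' k := by
  choose E hE using fun l => (F l).exists_slope g θ
  obtain rfl : E o = D := (F o).slope_unique (hE o) hD
  obtain rfl : E j = D' := (F j).slope_unique (hE j) hD'
  have hmem := slope_mem g θ hE
  have hpr : ∀ (l : N) (Y : ↥(LieP F)), prj' F l (adL hmem Y) = adm (E l) (prj' F l Y) := by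
    intro l Y
    change (E l - (ext0 θ ((F l).mult g) / 2) • 1) * Y.1 l -
      Y.1 l * (E l - (ext0 θ ((F l).mult g) / 2) • 1) = E l * Y.1 l - Y.1 l * E l
    rw [sub_mul, mul_sub, smul_mul_assoc, one_mul, mul_smul_comm, mul_one]
    abel
  have h2 : ((F o).skew ⊓ (adm (E o)).maxGenEigenspace k : Submodule K (End K (F o).V)) ≤
      ((adL hmem).maxGenEigenspace k).map (prj' F o) := by
    rintro X ⟨hX, hXk⟩
    rw [← h0] at hX
    obtain ⟨Y, hY, rfl, -⟩ := hX
    obtain ⟨Z, hZ, hZY⟩ := lift_gen (hpr o) (y := ⟨Y, hY⟩) hXk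
    exact ⟨Z, hZ, hZY⟩
  have h3 : ((adL hmem).maxGenEigenspace k).map (prj' F j) ≤
      ((F j).skew ⊓ (adm (E j)).maxGenEigenspace k : Submodule K (End K (F j).V)) := by
    rintro _ ⟨Y, hY, rfl⟩
    exact ⟨Y.2.1 j, map_gen (hpr j) hY⟩
  refine (Submodule.finrank_mono h2).trans (le_trans ?_ (Submodule.finrank_mono h3))
  refine finrank_map_le' _ _ _ fun Y _ hY => ?_
  have h4 : Y.1 o ∈ van F o {j} := ⟨Y.1, Y.2, rfl, fun l hl => by
    rw [Finset.mem_singleton] at hl
    subst hl
    exact hY⟩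
  rw [h1, Submodule.mem_bot] at h4
  exact h4

/-- nondegeneracy on the other side -/
theorem PRep.nondeg' (P : PRep K Γ) {y : P.V} (h : ∀ x, P.form x y = 0) : y = 0 := by
  refine P.nondeg y fun x => ?_
  rw [P.symm, h, mul_zero]

theorem PRep.eq_of_form (P : PRep K Γ) {X Y : End K P.V}
    (h : ∀ x y, P.form x (X y) = P.form x (Y y)) : X = Y := by
  apply LinearMap.ext
  intro y
  have h1 : X y - Y y = 0 := P.nondeg' fun x => by rw [map_sub, h, sub_self]
  exact sub_eq_zero.1 h1

/-- An invariant operator is preserved up to scalars. -/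
theorem br_of_semi {j : N} {Δ : Subgroup Γ} (hΔ : Δ.FiniteIndex) {A : End K (F j).V}
    (hA : ∀ g ∈ Δ, (F j).ρ g * A = A * (F j).ρ g) {Y : ∀ j, End K (F j).V} (hY : Y ∈ LieP F) :
    ∃ a : K, A * Y j - Y j * A = a • A := by
  have hsemi : SemiInv F (fun _ : Fin 2 => j) ((F j).bm A) := by
    refine ⟨Δ, hΔ, fun g hg => ⟨(F j).mult g, fun v => ?_⟩⟩
    change (F j).form ((F j).ρ g (v 0)) (A ((F j).ρ g (v 1))) = _
    have h1 : A ((F j).ρ g (v 1)) = (F j).ρ g (A (v 1)) := by
      rw [← Module.End.mul_apply, ← hA g hg]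
      rfl
    rw [h1, (F j).act]
    rfl
  obtain ⟨a, ha⟩ := hY.2 (Fin 2) (fun _ => j) _ hsemi
  refine ⟨a, (F j).eq_of_form fun x y => ?_⟩
  have h2 := ha ![x, y]
  have h3 : der F (fun _ : Fin 2 => j) Y ((F j).bm A) ![x, y] =
      (F j).form (Y j x) (A y) + (F j).form x (A (Y j y)) := (F j).bm_der A (Y j) x y
  rw [h3] at h2
  have h4 := hY.1 j x (A y)
  have h5 : (F j).bm A ![x, y] = (F j).form x (A y) := rfl
  rw [h5] at h2
  simp only [LinearMap.sub_apply, Module.End.mul_apply, LinearMap.smul_apply, map_sub, map_smul,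
    smul_eq_mul]
  linear_combination h2 - h4

/-- Potentially abelian representations. -/
theorem comm_of_potAbelian {j : N} (hab : (F j).PotAbelian) {Y Y' : ∀ j, End K (F j).V}
    (hY : Y ∈ LieP F) (hY' : Y' ∈ LieP F) : Y j * Y' j = Y' j * Y j := by
  obtain ⟨Δ, hΔ, hcomm⟩ := hab
  by_cases hV : Subsingleton (F j).V
  · apply LinearMap.ext
    intro x
    exact Subsingleton.elim _ _
  have hfr : (finrank K (F j).V : K) ≠ 0 := by
    rw [not_subsingleton_iff_nontrivial] at hV
    exact Nat.cast_ne_zero.2 finrank_pos.ne'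
  have key : ∀ Y ∈ LieP F, ∀ g ∈ Δ, (F j).ρ g * Y j = Y j * (F j).ρ g := by
    intro Y hY g hg
    obtain ⟨a, ha⟩ := br_of_semi hΔ (A := (F j).ρ g) (fun h hh => hcomm h hh g hg) hY
    have h1 : (F j).ρ g⁻¹ * (F j).ρ g = 1 := by rw [← map_mul, inv_mul_cancel, map_one]
    have h2 : (F j).ρ g * (F j).ρ g⁻¹ = 1 := by rw [← map_mul, mul_inv_cancel, map_one]
    have h3 : Y j - (F j).ρ g⁻¹ * Y j * (F j).ρ g = a • 1 := by
      have h4 := congrArg (fun Z => (F j).ρ g⁻¹ * Z) ha
      beta_reduce at h4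
      rw [mul_sub, ← mul_assoc, h1, one_mul, mul_smul_comm, h1, ← mul_assoc] at h4
      exact h4
    have h5 := congrArg (LinearMap.trace K (F j).V) h3
    rw [map_sub, map_smul, LinearMap.trace_one, smul_eq_mul,
      LinearMap.trace_mul_comm K ((F j).ρ g⁻¹ * Y j), ← mul_assoc, h2, one_mul, sub_self] at h5
    have h6 : a = 0 := (mul_eq_zero.1 h5.symm).resolve_right hfr
    rw [h6, zero_smul, sub_eq_zero] at ha
    exact ha
  obtain ⟨a, ha⟩ := br_of_semi hΔ (A := Y' j) (key Y' hY') hY
  obtain ⟨b, hb⟩ := br_of_semi hΔ (A := Y j) (key Y hY) hY'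
  -- `Y' Y - Y Y' = a Y'` and `Y Y' - Y' Y = b Y`
  by_cases ha0 : a = 0
  · rw [ha0, zero_smul, sub_eq_zero] at ha
    exact ha.symm
  · have h1 : Y' j = (-(b / a)) • Y j := by
      have h2 : a • Y' j = -(b • Y j) := by rw [← ha, ← hb, neg_sub]
      have h3 := congrArg (fun Z => a⁻¹ • Z) h2
      beta_reduce at h3
      rw [smul_smul, inv_mul_cancel₀ ha0, one_smul, smul_neg, smul_smul] at h3
      rw [h3, ← neg_smul]
      congr 1
      field_simp
    rw [h1, mul_smul_comm, smul_mul_assoc]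

/-- **The criterion.** -/
theorem van_single_ne {o j : N} (hbig : (F o).Big)
    (hyp : (F o).Hyperbolic) (hun : Unrelated (F j) (F o)) : van F o {j} ≠ ⊥ := by
  intro hbot
  have h0 : van F o ∅ = (F o).skew := (van_big hbig).resolve_left (van_ne_bot hyp)
  rw [unrelated_iff, smaller_iff, smaller_iff] at hun
  rcases hun with ⟨g, θ, D', D, k, hD', hD, hlt⟩ | hab |
    ⟨hbj, ⟨g, θ, D', D, k, hD', hD, hlt⟩ | ⟨hdim, hsign, h8, hiso⟩⟩
  · exact absurd (wt_le h0 hbot hD hD' k) (not_le.2 hlt)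
  · obtain ⟨X, hX, X', hX', hne⟩ := hbig.1
    apply hne
    rw [← h0] at hX hX'
    obtain ⟨Y, hY, rfl, -⟩ := hX
    obtain ⟨Y', hY', rfl, -⟩ := hX'
    have h1 : Y o * Y' o - Y' o * Y o ∈ van F o {j} :=
      ⟨_, LieP_bracket hY hY', rfl, fun l hl => by
        rw [Finset.mem_singleton] at hl
        subst hl
        change Y l * Y' l - Y' l * Y l = 0
        rw [comm_of_potAbelian hab hY hY', sub_self]⟩
    rw [hbot, Submodule.mem_bot, sub_eq_zero] at h1
    exact h1
  · -- `D'` is an operator on `F o`, `D` on `F j`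
    have hz : ∀ Y ∈ LieP F, Y j = 0 → Y o = 0 := by
      intro Y hY hYj
      have h1 : Y o ∈ van F o {j} := ⟨Y, hY, rfl, fun l hl => by
        rw [Finset.mem_singleton] at hl
        subst hl
        exact hYj⟩
      rwa [hbot, Submodule.mem_bot] at h1
    rcases van_big (A := {o}) hbj with h1 | h1
    · rcases van_big (A := ∅) hbj with h2 | h2
      · refine van_ne_bot hyp ?_
        rw [eq_bot_iff]
        rintro X ⟨Y, hY, rfl, -⟩
        rw [Submodule.mem_bot]
        refine hz Y hY ?_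
        have h3 : Y j ∈ van F j ∅ := ⟨Y, hY, rfl, fun l hl => absurd hl (Finset.notMem_empty l)⟩
        rwa [h2, Submodule.mem_bot] at h3
      · exact absurd (wt_le h2 h1 hD hD' k) (not_le.2 hlt)
    · refine van_ne_bot hyp ?_
      rw [eq_bot_iff]
      rintro X ⟨Y, hY, rfl, -⟩
      rw [Submodule.mem_bot]
      have h3 : Y j ∈ van F j {o} := by
        rw [h1]
        exact hY.1 j
      obtain ⟨Y', hY', hYY, h4⟩ := h3
      have h5 := hz (Y - Y') (Submodule.sub_mem _ hY hY') (by
        rw [Pi.sub_apply, hYY, sub_self])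
      rw [Pi.sub_apply, h4 o (Finset.mem_singleton_self o), sub_zero] at h5
      exact h5
  · refine van_single_ne_big hbig hyp hbj hdim.symm hsign.symm (fun h => ?_) hiso hbot
    have h9 : (0 : ℤ) ≤ ((F o).dim : ℤ) := Int.natCast_nonneg _
    rcases Int.units_eq_one_or (F o).sign with hs | hs
    · rw [hs, Units.val_one, mul_one] at h
      have h10 := h8 (by exact_mod_cast h)
      rw [hs] at h10
      exact absurd h10 (by decide)
    · rw [hs, Units.val_neg, Units.val_one] at h
      rw [h] at h9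
      omega

/-- **The Lie algebra of an independent factor kills all semi-invariant forms.** -/
theorem goursat {o : N} (hbig : (F o).Big) (hyp : (F o).Hyperbolic)
    (hun : ∀ j, j ≠ o → Unrelated (F j) (F o)) {X : End K (F o).V} (hX : X ∈ (F o).skew)
    {I : Type} [Fintype I] [DecidableEq I] {c : I → N}
    {Φ : MultilinearMap K (fun i => (F (c i)).V) K} (hΦ : SemiInv F c Φ) (v : ∀ i, (F (c i)).V) :
    der F c (Pi.single o X) Φ v = 0 :=
  kills_of_all hbig (van_all hbig (van_ne_bot hyp)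
    (fun j hj => van_single_ne hbig hyp (hun j hj)) _ (Finset.notMem_erase o _)) hX hΦ v

end Pool.Agent.H802T
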