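import Pool.Agent.H802T.Pair
import Pool.Agent.TH125.Gal.Pub2
import Pool.Agent.TH125.Gal.Nst

/-!
# The conjecture D for products with powers, without positivity
-/

open CategoryTheory AlgebraicGeometry Finset Function

set_option linter.unusedSectionVars false

universe u v w

namespace Pool.Agent.H802T

open Pool.Agent.TH125.Gal
open Pool.Agent.H914 Pool.Agent.H914.VarClass Pool.Agent.H914.VarClass.Obj
  Pool.Agent.H914.WeilCohomology Pool.Agent.H281R3.HT Pool.Agent.W552

variable {k : Type u} [Field k] {𝒱 : VarClass k} {ops : CycleOps 𝒱}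
  {W : WeilCohomology.{u, v} ops} {X Y Z : 𝒱.Obj}

/-- the Gram matrix of the dual classes -/
noncomputable def gram (s : SB W X) : Matrix (Fin s.NT) (Fin s.NT) W.K :=
  Matrix.of fun i j => bil W X (s.uT i) (s.uT j)

theorem exists_nice_SB [IsAlgClosed W.K] (hDX : HomEqNum W X)
    (hmid : transcendental W X ≤ W.gr X X.dim) : ∃ s : SB W X, NiceMat (gram s) := by
  obtain ⟨s0⟩ := exists_SB hDX
  have hT1 : ∀ a, (∀ b, rform W X (transcendental W X) a b = 0) → a = 0 :=
    fun a h => trans_nondeg hDX a h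
  obtain ⟨t, ht⟩ := exists_nice (B := rform W X (transcendental W X)) (s := (-1) ^ X.dim)
    (neg_one_pow_eq_or ℤ _) (fun a b => by
      rw [rform_apply, rform_apply, trans_symm hmid a.2 b.2]
      push_cast
      rfl) hT1
  have hflip : LinearMap.BilinForm.Nondegenerate (LinearMap.flip (rform W X (transcendental W X))) := by
    refine ⟨fun x hx => hT1 x fun y => ?_, fun x hx => hT1 x fun y => hx y⟩
    rw [rform_apply, trans_symm hmid x.2 y.2]
    have h1 : bil W X (y : W.H X) (x : W.H X) = 0 := hx y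
    rw [h1, mul_zero]
  let bT := LinearMap.BilinForm.dualBasis _ hflip t
  have hbT : ∀ i j, bil W X (t i : W.H X) (bT j : W.H X) = if j = i then 1 else 0 := by
    intro i j
    have h1 := LinearMap.BilinForm.apply_dualBasis_left hflip t j i
    rw [LinearMap.flip_apply] at h1
    refine h1.trans ?_
    by_cases hij : i = j
    · rw [if_pos hij, if_pos hij.symm]
    · rw [if_neg hij, if_neg (Ne.symm hij)]
  exact ⟨{
    NC := s0.NC
    NT := Module.finrank W.K (transcendental W X)
    bC := s0.bC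
    jC := s0.jC
    alg := s0.alg
    bT := bT
    e := (s0.bC.prod bT).map (Submodule.prodEquivOfIsCompl _ _ (isCompl hDX))
    e_inl := fun i => by
      rw [Module.Basis.map_apply, Module.Basis.prod_apply]
      simp
    e_inr := fun i => by
      rw [Module.Basis.map_apply, Module.Basis.prod_apply]
      simp
    uC := s0.uC
    uT := t
    uC_bC := s0.uC_bC
    uT_bT := hbT }, ht⟩

variable {s : SB W X}

/-- the basis in terms of the dual basis -/
theorem bT_eq (hs : NiceMat (gram s)) (j : Fin s.NT) :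
    (s.bT j : W.H X) = ∑ k, gram s j k • (s.uT k : W.H X) := by
  have hmem : ∑ k, gram s j k • (s.uT k : W.H X) ∈ transcendental W X :=
    Submodule.sum_mem _ fun k _ => Submodule.smul_mem _ _ (s.uT k).2
  have h1 : ((s.bT j : W.H X) - ∑ k, gram s j k • (s.uT k : W.H X)) ∈ transcendental W X :=
    Submodule.sub_mem _ (s.bT j).2 hmem
  have h2 : ∀ i, bil W X (s.uT i) ((s.bT j : W.H X) - ∑ k, gram s j k • (s.uT k : W.H X)) = 0 := by
    intro i
    rw [map_sub, s.uT_bT, map_sum]
    have h3 : ∑ k, bil W X (s.uT i : W.H X) (gram s j k • (s.uT k : W.H X)) =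
        ∑ k, gram s j k * gram s i k := by
      refine Finset.sum_congr rfl fun k _ => ?_
      rw [map_smul, smul_eq_mul]
      rfl
    rw [h3, hs.orth, sub_self]
  exact sub_eq_zero.1 ((s.expand_T h1).trans (Finset.sum_eq_zero fun i _ =>
    (congrArg (· • (s.bT i : W.H X)) (h2 i)).trans (zero_smul _ _)))

/-- the class of the Gram matrix in the dual basis -/
noncomputable def dU (s : SB W X) : W.H (X.prod X) :=
  ∑ a : Fin 2 → Fin s.NT, gram s (a 0) (a 1) •
    (W.map (fst X X) (s.uT (a 0)) * W.map (snd X X) (s.uT (a 1)))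

theorem dU_alg (hDX : HomEqNum W X) (hmid : transcendental W X ≤ W.gr X X.dim)
    (hs : NiceMat (gram s)) : dU s ∈ algSpan W (X.prod X) := by
  have h1 : dU s = ∑ i, ∑ j, gram s i j •
      (W.map (fst X X) (s.uT i : W.H X) * W.map (snd X X) (s.uT j : W.H X)) := by
    have h2 := Fintype.sum_equiv (finTwoArrowEquiv (Fin s.NT))
      (fun a : Fin 2 → Fin s.NT => gram s (a 0) (a 1) •
        (W.map (fst X X) (s.uT (a 0) : W.H X) * W.map (snd X X) (s.uT (a 1) : W.H X)))
      (fun a => gram s a.1 a.2 •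
        (W.map (fst X X) (s.uT a.1 : W.H X) * W.map (snd X X) (s.uT a.2 : W.H X)))
      (fun a => rfl)
    rw [Fintype.sum_prod_type] at h2
    exact h2
  have h2 : dU s = (-1 : W.K) ^ X.dim • dT s := by
    rw [h1, dT, Finset.smul_sum, Finset.sum_comm]
    refine Finset.sum_congr rfl fun j _ => ?_
    rw [bT_eq hs j, map_sum, Finset.sum_mul, Finset.smul_sum]
    refine Finset.sum_congr rfl fun i _ => ?_
    rw [map_smul, smul_mul_assoc, smul_smul]
    congr 1
    change bil W X (s.uT i : W.H X) (s.uT j : W.H X) = _ * bil W X (s.uT j : W.H X) (s.uT i : W.H X)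
    exact trans_symm hmid (s.uT i).2 (s.uT j).2
  rw [h2]
  exact Submodule.smul_mem _ _ (dT_alg hDX hmid s)

theorem algSpan_list {Y : 𝒱.Obj} {L : List (W.H Y)} (h : ∀ a ∈ L, a ∈ algSpan W Y) :
    L.prod ∈ algSpan W Y := by
  induction L with
  | nil => exact algSpan_one
  | cons a L ih =>
    rw [List.prod_cons]
    exact algSpan_mul (h a List.mem_cons_self) (ih fun b hb => h b (List.mem_cons_of_mem _ hb))

/-- The classes dual to the classes of matchings are algebraic. -/
theorem dual_alg (hDX : HomEqNum W X) (hmid : transcendental W X ≤ W.gr X X.dim)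
    (hs : NiceMat (gram s)) {N : ℕ} (π : Fin N → (Y ⟶ X)) {c : Fin N → Option (Fin s.NC)} {m : ℕ}
    (e : Fin m × Fin 2 ≃ Free c) :
    ∑ r : Free c → Fin s.NT, (∏ l, gram s (r (e (l, 0))) (r (e (l, 1)))) •
      mono π (fun p => s.es (comb c r p)) ∈ algSpan W Y := by
  have hty : ∀ i : Fin s.NC ⊕ Fin s.NT,
      Ty W X (Sum.elim (fun _ => 0) (fun _ => X.dim) i) (s.es i) := by
    rintro (i | i)
    · exact Or.inl ⟨rfl, (s.uC i).2⟩
    · exact Or.inr ⟨rfl, hmid (s.uT i).2⟩
  obtain ⟨ε, hε⟩ := sum_pattern (K := W.K) (E := fun p i => W.map (π p) (s.es i))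
    (dg := Sum.elim (fun _ => 0) (fun _ => X.dim)) (d := X.dim) (fun _ => rfl)
    (fun p q _ i j => (hty i).comm (hty j) _ _) e (fun i j => gram s i j)
  refine (congrArg (· ∈ algSpan W Y) hε).mpr ?_
  refine Submodule.smul_mem _ _ (algSpan_mul (algSpan_list fun a ha => ?_)
    (algSpan_list fun a ha => ?_))
  · obtain ⟨l, rfl⟩ := (List.mem_ofFn' _ _).1 ha
    have h1 : ∑ a : Fin 2 → Fin s.NT, gram s (a 0) (a 1) •
        (W.map (π (e (l, 0)).1) (s.es (Sum.inr (a 0))) *
          W.map (π (e (l, 1)).1) (s.es (Sum.inr (a 1)))) =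
        W.map (Obj.lift (π (e (l, 0)).1) (π (e (l, 1)).1)) (dU s) := by
      rw [dU, map_sum]
      refine Finset.sum_congr rfl fun a _ => ?_
      rw [map_smul, map_mul, ← W.map_comp, ← W.map_comp, Obj.lift_fst, Obj.lift_snd]
      rfl
    exact (congrArg (· ∈ algSpan W Y) h1).mpr (algSpan_map _ (dU_alg hDX hmid hs))
  · obtain ⟨p, hp, rfl⟩ := List.mem_map.1 ha
    cases c p with
    | none => exact algSpan_one
    | some i => exact algSpan_map _ (s.uC i).2

section

variable {P : Polarized 𝒱} {n : ℕ} {s : SB W P.X}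
  {b : Module.Basis (Fin (n + 1) → Fin s.NC ⊕ Fin s.NT) W.K (W.H (nest ops n fun _ => P).X)}
  (hb : ∀ r, b r = mono (prj ops n fun _ => P) fun p => s.e (r p))

/-- The coordinates of the class are generated by the form. -/
def Good (s : SB W P.X)
    (b : Module.Basis (Fin (n + 1) → Fin s.NC ⊕ Fin s.NT) W.K (W.H (nest ops n fun _ => P).X))
    (c : W.H ((nest ops n fun _ => P).X.prod Z)) : Prop :=
  ∀ c₀ : Fin (n + 1) → Option (Fin s.NC),
    (fun r : Free c₀ → Fin s.NT => hml s.e b c fun p => s.es (comb c₀ r p)) ∈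
      Pool.Agent.TH125.Nod.Gen (fun _ : Fin s.NT => ()) (gram s) (fun _ : Free c₀ => ())

include hb in
theorem Good.add {c c' : W.H ((nest ops n fun _ => P).X.prod Z)} (h : Good s b c)
    (h' : Good s b c') : Good s b (c + c') := by
  intro c₀
  have h1 : (fun r : Free c₀ → Fin s.NT => hml s.e b (c + c') fun p => s.es (comb c₀ r p)) =
      (fun r : Free c₀ → Fin s.NT => hml s.e b c fun p => s.es (comb c₀ r p)) +
        fun r : Free c₀ → Fin s.NT => hml s.e b c' fun p => s.es (comb c₀ r p) := by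
    funext r
    exact hml_add hb _ _ _
  rw [h1]
  exact Submodule.add_mem _ (h c₀) (h' c₀)

include hb in
/-- **Classes whose contractions with all algebraic classes vanish.** -/
theorem Good.eq_zero (hDX : HomEqNum W P.X) (hmid : transcendental W P.X ≤ W.gr P.X P.X.dim)
    (hs : NiceMat (gram s)) {c : W.H ((nest ops n fun _ => P).X.prod Z)} (h : Good s b c)
    (h0 : ∀ a ∈ algSpan W (nest ops n fun _ => P).X, cn a c = 0) : c = 0 := by
  rw [expand b c, sum_patterns]
  refine Finset.sum_eq_zero fun c₀ _ => Finset.sum_eq_zero fun r _ => ?_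
  rw [coord_eq hb]
  obtain ⟨ε, hε, h1⟩ := cn_mono (Z := Z) hb hmid c₀
  have hε' : (ε : W.K) * (ε : W.K) = 1 := by
    rw [← Int.cast_mul, hε, Int.cast_one]
  have h2 : (fun r : Free c₀ → Fin s.NT => hml s.e b c fun p => s.es (comb c₀ r p)) = 0 := by
    refine eq_zero_of_contr hs (h c₀) fun m e => ?_
    have h3 := h0 _ (dual_alg hDX hmid hs (prj ops n fun _ => P) e)
    rw [cn_sum_left] at h3
    have h4 : ∀ r : Free c₀ → Fin s.NT, cn ((∏ l, gram s (r (e (l, 0))) (r (e (l, 1)))) •
        mono (prj ops n fun _ => P) (fun p => s.es (comb c₀ r p))) c =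
        (ε : W.K) • ((∏ l, gram s (r (e (l, 0))) (r (e (l, 1)))) •
          hml s.e b c fun p => s.es (comb c₀ r p)) := by
      intro r
      rw [cn_smul_left, h1, smul_comm]
    rw [Finset.sum_congr rfl fun r _ => h4 r, ← Finset.smul_sum] at h3
    have h5 := congrArg (fun x => (ε : W.K) • x) h3
    beta_reduce at h5
    rw [smul_smul, hε', one_smul, smul_zero] at h5
    exact h5
  have h3 := congrFun h2 r
  beta_reduce at h3
  rw [h3, Pi.zero_apply, map_zero, mul_zero]

include hb in
/-- **The conjecture D for products with powers.** -/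
theorem homEqNum_of_good (hDX : HomEqNum W P.X)
    (hmid : transcendental W P.X ≤ W.gr P.X P.X.dim) (hs : NiceMat (gram s))
    (hgood : ∀ c : W.H ((nest ops n fun _ => P).X.prod Z), W552.AS W _ c → Good s b c)
    (hZ : HomEqNum W Z) : HomEqNum W ((nest ops n fun _ => P).X.prod Z) := by
  rw [homEqNum_iff] at hZ ⊢
  intro c hc hnum
  refine (hgood c hc).eq_zero hb hDX hmid hs fun a ha => ?_
  rw [algSpan_eq] at ha
  induction ha using Submodule.span_induction with
  | mem a ha =>
    refine hZ _ (cn_AS ha hc) fun w hw => ?_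
    have h2 := (ha.map (fst _ Z)).comm c
    rw [tr_cn, h2, mul_assoc]
    exact hnum _ ((ha.map _).mul (hw.map _))
  | zero => exact cn_zero_left c
  | add x y _ _ hx hy => rw [cn_add_left, hx, hy, add_zero]
  | smul q x _ hx => rw [cn_smul_left, hx, smul_zero]

include hb in
/-- **The conjecture D for powers.** -/
theorem homEqNum_nest_of_good (hDX : HomEqNum W P.X)
    (hmid : transcendental W P.X ≤ W.gr P.X P.X.dim) (hs : NiceMat (gram s))
    (hgood : ∀ c : W.H ((nest ops n fun _ => P).X.prod Z), W552.AS W _ c → Good s b c)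
    (hZ : (1 : W.H Z) ≠ 0) : HomEqNum W (nest ops n fun _ => P).X := by
  rw [homEqNum_iff]
  intro c hc hnum
  have h1 : W.map (fst _ Z) c = 0 := by
    refine (hgood _ (hc.map _)).eq_zero hb hDX hmid hs fun a ha => ?_
    have h4 : W.map (fst _ Z) c = W.map (fst _ Z) c * W.map (snd _ Z) 1 := by
      rw [map_one, mul_one]
    rw [h4, cn_ext]
    rw [algSpan_eq] at ha
    have h5 : W.tr _ (a * c) = 0 := by
      induction ha using Submodule.span_induction with
      | mem a ha =>
        rw [ha.comm]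
        exact hnum a ha
      | zero => rw [zero_mul, map_zero]
      | add x y _ _ hx hy => rw [add_mul, map_add, hx, hy, add_zero]
      | smul q x _ hx => rw [smul_mul_assoc, map_smul, hx, smul_zero]
    rw [h5, zero_smul]
  obtain ⟨φ, hφ⟩ : ∃ φ : Module.Dual W.K (W.H Z), φ 1 ≠ 0 := by
    by_contra hcon
    push Not at hcon
    exact hZ ((Module.forall_dual_apply_eq_zero_iff W.K _).1 hcon)
  have h2 : W.map (fst _ Z) c = W.map (fst _ Z) c * W.map (snd _ Z) 1 := by
    rw [map_one, mul_one]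
  have h3 := congrArg (ctr2 φ) h1
  rw [h2, ctr2_apply, map_zero] at h3
  exact (smul_eq_zero.1 h3).resolve_left hφ

end

section

variable {P : Polarized 𝒱} {n : ℕ} {Z : 𝒱.Obj} {s : SB W P.X}
  {Γ : Type w} [Group Γ] {χ : Γ →* W.Kˣ} {ρ : Γ →* (W.H P.X ≃ₐ[W.K] W.H P.X)}
  {τ : Γ →* (W.H Z ≃ₐ[W.K] W.H Z)}
  {υ : Γ →* (W.H ((nest ops n fun _ => P).X.prod Z) ≃ₐ[W.K]
    W.H ((nest ops n fun _ => P).X.prod Z))}
  {b : Module.Basis (Fin (n + 1) → Fin s.NC ⊕ Fin s.NT) W.K (W.H (nest ops n fun _ => P).X)}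
  (hb : ∀ r, b r = mono (prj ops n fun _ => P) fun p => s.e (r p))

include hb in
/-- Algebraic classes are good. -/
theorem good_of_AS (hDX : HomEqNum W P.X) (hmid : transcendental W P.X ≤ W.gr P.X P.X.dim)
    (hG : IsGalois W χ P.X ρ) (hP : IsPowAct W P n Z ρ τ υ)
    (hU : IsGalois W χ ((nest ops n fun _ => P).X.prod Z) υ)
    (hK : Even P.X.dim → n + 1 < Module.finrank W.K (transcendental W P.X))
    (hfull : Whole hG τ) {c : W.H ((nest ops n fun _ => P).X.prod Z)} (hc : W552.AS W _ c) :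
    Good s b c := by
  refine W552.AS.ind (p := fun c => Good s b c) ?_ ?_ hc
  · intro j c hc c₀
    obtain ⟨Δ, hΔ, h1⟩ := hU.cl_fix j c hc
    exact gen_free2 hb hDX hmid hG hP hK hfull hΔ h1 c₀
  · intro x y hx hy
    exact hx.add hb hy

end

/-- **The conjecture D for products with powers.** -/
theorem homEqNum_pow [IsAlgClosed W.K] {P : Polarized 𝒱} {n : ℕ} {Z : 𝒱.Obj} {Γ : Type w}
    [Group Γ] {χ : Γ →* W.Kˣ} {ρ : Γ →* (W.H P.X ≃ₐ[W.K] W.H P.X)}
    {τ : Γ →* (W.H Z ≃ₐ[W.K] W.H Z)}
    {υ : Γ →* (W.H ((nest ops n fun _ => P).X.prod Z) ≃ₐ[W.K]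
      W.H ((nest ops n fun _ => P).X.prod Z))}
    (hDX : HomEqNum W P.X) (hmid : transcendental W P.X ≤ W.gr P.X P.X.dim)
    (hG : IsGalois W χ P.X ρ) (hP : IsPowAct W P n Z ρ τ υ)
    (hU : IsGalois W χ ((nest ops n fun _ => P).X.prod Z) υ)
    (hK : Even P.X.dim → n + 1 < Module.finrank W.K (transcendental W P.X))
    (hfull : Whole hG τ) :
    (HomEqNum W Z → HomEqNum W ((nest ops n fun _ => P).X.prod Z)) ∧
      ((1 : W.H Z) ≠ 0 → HomEqNum W (nest ops n fun _ => P).X) := by
  obtain ⟨s, hs⟩ := exists_nice_SB hDX hmid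
  obtain ⟨b, hb⟩ := exists_monoBasis (ops := ops) P s.e n
  exact ⟨fun h => homEqNum_of_good hb hDX hmid hs (fun c hc => good_of_AS hb hDX hmid hG hP hU
    hK hfull hc) h, fun h => homEqNum_nest_of_good hb hDX hmid hs
      (fun c hc => good_of_AS hb hDX hmid hG hP hU hK hfull hc) h⟩

end Pool.Agent.H802T
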