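import Pool.Agent.H802T.Pub

/-!
# Polarised representations and their infinitesimal symmetries: auxiliary definitions
-/

set_option autoImplicit false

namespace Pool.Agent.H802T

open Module

section forms

variable {K V : Type} [Field K] [AddCommGroup V] [Module K V] {Γ : Type} [Group Γ]

/-- The Lie algebra of the orthogonal or symplectic group of the form. -/
def skew (B : V →ₗ[K] V →ₗ[K] K) : Submodule K (End K V) where
  carrier := {X | ∀ x y, B (X x) y + B x (X y) = 0}
  zero_mem' := fun x y => by simp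
  add_mem' := by
    intro X Y hX hY x y
    rw [LinearMap.add_apply, LinearMap.add_apply, map_add, map_add, LinearMap.add_apply]
    linear_combination hX x y + hY x y
  smul_mem' := by
    intro r X hX x y
    rw [LinearMap.smul_apply, LinearMap.smul_apply, map_smul, map_smul, LinearMap.smul_apply,
      ← smul_add, hX, smul_zero]

theorem skewAdj_eq (B : V →ₗ[K] V →ₗ[K] K) : B.skewAdjointSubmodule = skew B := by
  ext X
  rw [LinearMap.mem_skewAdjointSubmodule]
  change (∀ x y, B (X x) y = B x ((-X) y)) ↔ ∀ x y, B (X x) y + B x (X y) = 0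
  refine forall_congr' fun x => forall_congr' fun y => ?_
  rw [LinearMap.neg_apply, map_neg, eq_neg_iff_add_eq_zero]

end forms

theorem GenMap.exists_linear {K : Type} [Field K] {N : Type} {V : N → Type}
    [∀ j, AddCommGroup (V j)] [∀ j, Module K (V j)] {A : Type} [Ring A] [Algebra K A]
    (J : GenMap K V A) : ∃ J' : A →ₗ[K] MultilinearMap K (fun i => V (J.c i)) K,
      ∀ z v, J' z v = J.app z v := by
  choose F hF using J.mult
  refine ⟨{ toFun := F, map_add' := fun x y => ?_, map_smul' := fun r x => ?_ }, fun z v => hF z v⟩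
  · refine MultilinearMap.ext fun v => ?_
    rw [_root_.add_apply, hF, hF, hF]
    exact (J.lin v).map_add x y
  · refine MultilinearMap.ext fun v => ?_
    rw [RingHom.id_apply, _root_.smul_apply, hF, hF]
    exact (J.lin v).map_smul r x

variable {K : Type} [Field K] {Γ : Type} [Group Γ]

theorem PRep.nondeg (P : PRep K Γ) : ∀ x, (∀ y, P.form x y = 0) → x = 0 := P.isPol.nondeg

theorem PRep.symm (P : PRep K Γ) : ∀ x y, P.form x y = ((P.sign : ℤ) : K) * P.form y x :=
  P.isPol.symm

theorem PRep.act (P : PRep K Γ) : ∀ g x y, P.form (P.ρ g x) (P.ρ g y) = P.mult g * P.form x y :=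
  P.isPol.act

/-- The Lie algebra of the orthogonal or symplectic group of the form. -/
def PRep.skew (P : PRep K Γ) : Submodule K (End K P.V) := H802T.skew P.form

/-- Big monodromy. -/
def PRep.Big (P : PRep K Γ) : Prop :=
  (∃ X ∈ P.skew, ∃ Y ∈ P.skew, X * Y ≠ Y * X) ∧
    ∀ U ≤ P.skew, (∀ g, ∀ X ∈ U, P.ρ g * X * P.ρ g⁻¹ ∈ U) → U = ⊥ ∨ U = P.skew

theorem PRep.big_iff (P : PRep K Γ) : H802T.Big P.ρ P.form ↔ P.Big := by
  rw [H802T.Big, skewAdj_eq]
  rfl

/-- Some element of `Γ` has two eigenvalues whose quotient is not a root of unity. -/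
def PRep.Hyperbolic (P : PRep K Γ) : Prop := H802T.Hyperbolic P.ρ

/-- Some subgroup of finite index acts through a commutative group. -/
def PRep.PotAbelian (P : PRep K Γ) : Prop :=
  ∃ Δ : Subgroup Γ, Δ.FiniteIndex ∧ ∀ g ∈ Δ, ∀ h ∈ Δ, P.ρ g * P.ρ h = P.ρ h * P.ρ g

theorem PRep.potAbelian_iff (P : PRep K Γ) : H802T.PotAbelian P.ρ ↔ P.PotAbelian := by
  refine exists_congr fun Δ => and_congr_right fun _ => ?_
  exact ⟨fun h g hg g' hg' => LinearMap.ext (h g hg g' hg'), fun h g hg g' hg' x =>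
    congrArg (fun f : P.V →ₗ[K] P.V => f x) (h g hg g' hg')⟩

/-- The dimension of the graded part. -/
noncomputable def PRep.wt (P : PRep K Γ) (D : End K P.V) (k : K) : ℕ :=
  finrank K (P.skew ⊓ (adm D).maxGenEigenspace k : Submodule K (End K P.V))

theorem PRep.wt_eq (P : PRep K Γ) (D : End K P.V) (k : K) : H802T.wt P.form D k = P.wt D k := by
  rw [H802T.wt, skewAdj_eq]
  rfl

theorem smaller_iff {Q P : PRep K Γ} : Smaller Q P ↔
    ∃ (g : Γ) (θ : Additive Kˣ →+ K) (D' : End K Q.V) (D : End K P.V) (k : K),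
    IsSlope θ (Q.ρ g) D' ∧ IsSlope θ (P.ρ g) D ∧ Q.wt D' k < P.wt D k := by
  simp only [Smaller, SmallerForm, PRep.wt_eq]

theorem unrelated_iff {Q P : PRep K Γ} :
    Unrelated Q P ↔ Smaller Q P ∨ Q.PotAbelian ∨ (Q.Big ∧ (Smaller P Q ∨
      (Q.dim = P.dim ∧ Q.sign = P.sign ∧ (P.dim = 8 → P.sign = -1) ∧ ¬ Proportional P Q))) := by
  rw [Unrelated, PRep.big_iff, PRep.potAbelian_iff]

/-- A multilinear form on representations which is multiplied by scalars by a subgroup of finite
index. -/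
def SemiInv {N : Type} (F : N → PRep K Γ) {I : Type} [Fintype I] [DecidableEq I] (c : I → N)
    (Φ : MultilinearMap K (fun i => (F (c i)).V) K) : Prop :=
  ∃ Δ : Subgroup Γ, Δ.FiniteIndex ∧ ∀ g ∈ Δ, ∃ μ : K, ∀ v,
    Φ (fun i => (F (c i)).ρ g (v i)) = μ * Φ v

/-- The operators `τ g`, `g ∈ Γ`, on `E` are generated by the members of the family `F` with indices
in `A`. -/
def Generated {K : Type} [Field K] {Γ : Type} [Group Γ] {N : Type} (F : N → PRep K Γ) (A : Set N)
    {E : Type} [AddCommGroup E] [Module K E] (τ : Γ → E →ₗ[K] E) : Prop :=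
  ∀ x : E, x ≠ 0 → ∃ (I : Type) (_ : Fintype I) (c : I → N)
    (J : E →ₗ[K] MultilinearMap K (fun i => (F (c i)).V) K), (∀ i, c i ∈ A) ∧
    (∃ Δ : Subgroup Γ, Δ.FiniteIndex ∧ ∀ g ∈ Δ, ∃ μ : K, ∀ z v,
      J (τ g z) (fun i => (F (c i)).ρ g (v i)) = μ * J z v) ∧ J x ≠ 0

end Pool.Agent.H802T
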