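import Pool.Agent.H802T.Wt
import Pool.Agent.H802T.GeoDefs

/-!
# Representations generated by a family, and equivariant multilinear maps to them
-/

set_option autoImplicit false
set_option linter.unusedSectionVars false

namespace Pool.Agent.H802T

open Module Finset Function

variable {K : Type} [Field K] {Γ : Type} [Group Γ] {N : Type}

variable [CharZero K] [IsAlgClosed K] [Fintype N] [DecidableEq N] {F : N → PRep K Γ}

/-- Equivariant multilinear maps are killed by the Lie algebra. -/
theorem kill_of_generated {o : N} (hbig : (F o).Big)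
    (hyp : (F o).Hyperbolic) (hun : ∀ j, j ≠ o → Unrelated (F j) (F o)) {A : Set N} (hA : o ∉ A)
    {E : Type} [AddCommGroup E] [Module K E] {τ : Γ → E →ₗ[K] E} (hτ : Generated F A τ)
    {S : Type} [Fintype S] [DecidableEq S] {h : MultilinearMap K (fun _ : S => (F o).V) E}
    (hh : ∃ Δ : Subgroup Γ, Δ.FiniteIndex ∧ ∀ g ∈ Δ, ∃ r : K, ∀ v,
      h (fun j => (F o).ρ g (v j)) = r • τ g (h v)) {X : End K (F o).V} (hX : X ∈ (F o).skew)
    (v : S → (F o).V) : ∑ j, h (update v j (X (v j))) = 0 := by
  classical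
  by_contra hne
  obtain ⟨I, hI, c, J, hc, ⟨Δ', hΔ', hJ⟩, hJx⟩ := hτ _ hne
  obtain ⟨Δ, hΔ, h1⟩ := hh
  apply hJx
  refine MultilinearMap.ext fun u => ?_
  set c' : S ⊕ I → N := Sum.elim (fun _ => o) c with hc'
  let g : MultilinearMap K (fun _ : S => (F o).V) (MultilinearMap K (fun i => (F (c i)).V) K) :=
    J.compMultilinearMap h
  let Φ : MultilinearMap K (fun q => (F (c' q)).V) K :=
    MultilinearMap.uncurrySum (N := fun q => (F (c' q)).V) g
  have hΦ : ∀ w : ∀ q, (F (c' q)).V, Φ w = J (h fun j => w (Sum.inl j)) fun i => w (Sum.inr i) :=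
    fun w => rfl
  have hsemi : SemiInv F c' Φ := by
    refine ⟨Δ ⊓ Δ', inferInstance, fun γ hγ => ?_⟩
    obtain ⟨r, hr⟩ := h1 γ hγ.1
    obtain ⟨μ, hμ⟩ := hJ γ hγ.2
    refine ⟨r * μ, fun w => ?_⟩
    have h2 := hr fun j => w (Sum.inl j)
    have h3 := hμ (h fun j => w (Sum.inl j)) fun i => w (Sum.inr i)
    change J (h fun j => (F o).ρ γ (w (Sum.inl j))) (fun i => (F (c i)).ρ γ (w (Sum.inr i))) =
      r * μ * J (h fun j => w (Sum.inl j)) (fun i => w (Sum.inr i))
    rw [h2, map_smul, mul_assoc, ← h3]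
    rfl
  let w : ∀ q, (F (c' q)).V := fun q => match q with
    | Sum.inl j => v j
    | Sum.inr i => u i
  have hk := goursat hbig hyp hun hX hsemi w
  rw [der, Fintype.sum_sum_type] at hk
  have h3 : ∀ i : I, Φ (update w (Sum.inr i)
      ((Pi.single o X : ∀ j, End K (F j).V) (c' (Sum.inr i)) (w (Sum.inr i)))) = 0 := by
    intro i
    have h4 : c' (Sum.inr i) ≠ o := fun h => hA (h ▸ hc i)
    rw [Pi.single_eq_of_ne h4, LinearMap.zero_apply]
    exact Φ.map_coord_zero (Sum.inr i) (update_self _ _ _)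
  have h5 : ∀ j : S, Φ (update w (Sum.inl j)
      ((Pi.single o X : ∀ j, End K (F j).V) (c' (Sum.inl j)) (w (Sum.inl j)))) =
      J (h (update v j (X (v j)))) u := by
    intro j
    rw [hΦ]
    have h6 : (Pi.single o X : ∀ j, End K (F j).V) (c' (Sum.inl j)) (w (Sum.inl j)) = X (v j) := by
      change (Pi.single o X : ∀ j, End K (F j).V) o (v j) = X (v j)
      rw [Pi.single_eq_same]
    rw [h6]
    have h7 : (fun l => update w (Sum.inl j) (X (v j)) (Sum.inl l)) = update v j (X (v j)) := by
      funext l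
      by_cases hl : l = j
      · subst hl
        exact (Function.update_self (β := fun q => (F (c' q)).V) (Sum.inl l) (X (v l)) w).trans
          (update_self l _ v).symm
      · exact (Function.update_of_ne (β := fun q => (F (c' q)).V)
          (fun h => hl (Sum.inl.inj h)) (X (v j)) w).trans (update_of_ne hl _ v).symm
    have h8 : (fun i => update w (Sum.inl j) (X (v j)) (Sum.inr i)) = u := by
      funext i
      exact Function.update_of_ne (β := fun q => (F (c' q)).V)
        (fun h => Sum.inr_ne_inl h) (X (v j)) w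
    rw [h7, h8]
  rw [Finset.sum_congr rfl fun i _ => h5 i, Finset.sum_congr rfl fun i _ => h3 i,
    Finset.sum_const_zero, add_zero] at hk
  rw [map_sum, _root_.sum_apply, hk]
  rfl

end Pool.Agent.H802T
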