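import Pool.Agent.H802T.Defs

/-!
# The Lie algebra of infinitesimal symmetries of all semi-invariant forms
-/

set_option autoImplicit false
set_option linter.unusedSectionVars false

namespace Pool.Agent.H802T

open Module Finset Function

variable {K : Type} [Field K] {Γ : Type} [Group Γ]

theorem PRep.rinv (P : PRep K Γ) (g : Γ) (x : P.V) : P.ρ g (P.ρ g⁻¹ x) = x := by
  rw [← Module.End.mul_apply, ← map_mul, mul_inv_cancel, map_one]
  rfl

theorem PRep.rinv' (P : PRep K Γ) (g : Γ) (x : P.V) : P.ρ g⁻¹ (P.ρ g x) = x := by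
  rw [← Module.End.mul_apply, ← map_mul, inv_mul_cancel, map_one]
  rfl

theorem PRep.mem_skew (P : PRep K Γ) {X : End K P.V} :
    X ∈ P.skew ↔ ∀ x y, P.form (X x) y + P.form x (X y) = 0 := Iff.rfl

theorem PRep.conj_skew (P : PRep K Γ) (g : Γ) {X : End K P.V} (hX : X ∈ P.skew) :
    P.ρ g * X * P.ρ g⁻¹ ∈ P.skew := by
  intro x y
  have h1 := hX (P.ρ g⁻¹ x) (P.ρ g⁻¹ y)
  have h2 := P.act g (X (P.ρ g⁻¹ x)) (P.ρ g⁻¹ y)
  have h3 := P.act g (P.ρ g⁻¹ x) (X (P.ρ g⁻¹ y))
  rw [P.rinv] at h2 h3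
  change P.form (P.ρ g (X (P.ρ g⁻¹ x))) y + P.form x (P.ρ g (X (P.ρ g⁻¹ y))) = 0
  rw [h2, h3, ← mul_add, h1, mul_zero]

theorem PRep.bracket_skew (P : PRep K Γ) {X Y : End K P.V} (hX : X ∈ P.skew) (hY : Y ∈ P.skew) :
    X * Y - Y * X ∈ P.skew := by
  intro x y
  simp only [LinearMap.sub_apply, Module.End.mul_apply, map_sub]
  linear_combination hX (Y x) y - hY (X x) y + hX x (Y y) - hY x (X y)

variable {N : Type} [Fintype N] [DecidableEq N] (F : N → PRep K Γ)

section der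

variable {I : Type} [Fintype I] [DecidableEq I] (c : I → N)

/-- The derivation. -/
def der (Y : ∀ j, End K (F j).V) (Φ : MultilinearMap K (fun i => (F (c i)).V) K)
    (v : ∀ i, (F (c i)).V) : K := ∑ i, Φ (update v i (Y (c i) (v i)))

variable {F c} (Φ : MultilinearMap K (fun i => (F (c i)).V) K)

theorem der_add (Y Y' : ∀ j, End K (F j).V) (v : ∀ i, (F (c i)).V) :
    der F c (Y + Y') Φ v = der F c Y Φ v + der F c Y' Φ v := by
  unfold der
  rw [← Finset.sum_add_distrib]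
  refine Finset.sum_congr rfl fun i _ => ?_
  rw [Pi.add_apply, LinearMap.add_apply, MultilinearMap.map_update_add]

theorem der_smul (r : K) (Y : ∀ j, End K (F j).V) (v : ∀ i, (F (c i)).V) :
    der F c (r • Y) Φ v = r * der F c Y Φ v := by
  unfold der
  rw [Finset.mul_sum]
  refine Finset.sum_congr rfl fun i _ => ?_
  rw [Pi.smul_apply, LinearMap.smul_apply, MultilinearMap.map_update_smul, smul_eq_mul]

theorem der_zero (v : ∀ i, (F (c i)).V) : der F c 0 Φ v = 0 := by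
  refine Finset.sum_eq_zero fun i _ => ?_
  rw [Pi.zero_apply, LinearMap.zero_apply]
  exact Φ.map_coord_zero i (update_self _ _ _)

theorem der_der {Y Y' : ∀ j, End K (F j).V} {a : K} (h : ∀ v, der F c Y Φ v = a * Φ v)
    (v : ∀ i, (F (c i)).V) : ∑ i, (Φ (update v i (Y (c i) (Y' (c i) (v i)))) +
      ∑ j ∈ univ.erase i, Φ (update (update v i (Y' (c i) (v i))) j (Y (c j) (v j)))) =
      a * der F c Y' Φ v := by
  rw [der, Finset.mul_sum]
  refine Finset.sum_congr rfl fun i _ => ?_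
  have h1 := h (update v i (Y' (c i) (v i)))
  rw [← h1, der, ← Finset.add_sum_erase _ _ (Finset.mem_univ i), update_self, update_idem]
  congr 1
  refine Finset.sum_congr rfl fun j hj => ?_
  rw [update_of_ne (Finset.ne_of_mem_erase hj)]

theorem der_bracket {Y Y' : ∀ j, End K (F j).V} {a a' : K} (h : ∀ v, der F c Y Φ v = a * Φ v)
    (h' : ∀ v, der F c Y' Φ v = a' * Φ v) (v : ∀ i, (F (c i)).V) :
    der F c (Y * Y' - Y' * Y) Φ v = 0 := by
  have h1 := der_der Φ h (Y' := Y') v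
  have h2 := der_der Φ h' (Y' := Y) v
  rw [Finset.sum_add_distrib] at h1 h2
  have h3 : ∑ i, ∑ j ∈ univ.erase i, Φ (update (update v i (Y' (c i) (v i))) j (Y (c j) (v j))) =
      ∑ i, ∑ j ∈ univ.erase i, Φ (update (update v i (Y (c i) (v i))) j (Y' (c j) (v j))) := by
    rw [Finset.sum_comm' (s' := fun j => univ.erase j) (t' := univ) (by
      intro x y
      simp only [Finset.mem_univ, Finset.mem_erase, ne_eq, and_true, true_and]
      exact ⟨fun h h' => h h'.symm, fun h h' => h h'.symm⟩)]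
    refine Finset.sum_congr rfl fun j _ => Finset.sum_congr rfl fun i hi => ?_
    rw [update_comm (Finset.ne_of_mem_erase hi)]
  have h4 : der F c (Y * Y' - Y' * Y) Φ v = ∑ i, Φ (update v i (Y (c i) (Y' (c i) (v i)))) -
      ∑ i, Φ (update v i (Y' (c i) (Y (c i) (v i)))) := by
    rw [der, ← Finset.sum_sub_distrib]
    refine Finset.sum_congr rfl fun i _ => ?_
    rw [Pi.sub_apply, LinearMap.sub_apply, MultilinearMap.map_update_sub]
    rfl
  rw [h] at h2
  rw [h'] at h1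
  rw [h3] at h1
  rw [h4]
  linear_combination h1 - h2

/-- conjugation of forms -/
theorem semiInv_conj {Φ : MultilinearMap K (fun i => (F (c i)).V) K} (hΦ : SemiInv F c Φ)
    (γ : Γ) : SemiInv F c (Φ.compLinearMap fun i => (F (c i)).ρ γ) := by
  obtain ⟨Δ, hΔ, h1⟩ := hΦ
  refine ⟨Δ.comap (MulAut.conj γ).toMonoidHom, ?_, fun g hg => ?_⟩
  · exact ⟨by
      rw [Subgroup.index_comap_of_surjective]
      · exact hΔ.index_ne_zero
      · exact (MulAut.conj γ).surjective⟩
  · have hg' : γ * g * γ⁻¹ ∈ Δ := hg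
    obtain ⟨μ, hμ⟩ := h1 _ hg'
    refine ⟨μ, fun v => ?_⟩
    rw [MultilinearMap.compLinearMap_apply, MultilinearMap.compLinearMap_apply, ← hμ]
    congr 1
    funext i
    rw [← Module.End.mul_apply, ← Module.End.mul_apply, ← map_mul, ← map_mul,
      inv_mul_cancel_right]

theorem der_conj {Y : ∀ j, End K (F j).V} {a : K} (γ : Γ)
    (h : ∀ v, der F c Y (Φ.compLinearMap fun i => (F (c i)).ρ γ) v =
      a * (Φ.compLinearMap fun i => (F (c i)).ρ γ) v) (v : ∀ i, (F (c i)).V) :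
    der F c (fun j => (F j).ρ γ * Y j * (F j).ρ γ⁻¹) Φ v = a * Φ v := by
  have h1 := h fun i => (F (c i)).ρ γ⁻¹ (v i)
  have h2 : (fun i => (F (c i)).ρ γ ((F (c i)).ρ γ⁻¹ (v i))) = v := by
    funext i
    exact (F (c i)).rinv γ _
  rw [MultilinearMap.compLinearMap_apply, h2] at h1
  rw [← h1]
  refine Finset.sum_congr rfl fun i _ => ?_
  rw [MultilinearMap.compLinearMap_apply]
  congr 1
  funext j
  by_cases hj : j = i
  · subst hj
    rw [update_self, update_self]
    rfl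
  · rw [update_of_ne hj, update_of_ne hj]
    exact ((F (c j)).rinv γ _).symm

end der

/-- The Lie algebra of infinitesimal symmetries. -/
def LieP : Submodule K (∀ j, End K (F j).V) where
  carrier := {Y | (∀ j, Y j ∈ (F j).skew) ∧ ∀ (I : Type) [Fintype I] [DecidableEq I] (c : I → N)
    (Φ : MultilinearMap K (fun i => (F (c i)).V) K), SemiInv F c Φ →
      ∃ a : K, ∀ v, der F c Y Φ v = a * Φ v}
  zero_mem' := ⟨fun j => Submodule.zero_mem _, fun I _ _ c Φ _ => ⟨0, fun v => by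
    rw [der_zero, zero_mul]⟩⟩
  add_mem' := by
    rintro Y Y' ⟨h1, h2⟩ ⟨h1', h2'⟩
    refine ⟨fun j => Submodule.add_mem _ (h1 j) (h1' j), fun I _ _ c Φ hΦ => ?_⟩
    obtain ⟨a, ha⟩ := h2 I c Φ hΦ
    obtain ⟨a', ha'⟩ := h2' I c Φ hΦ
    exact ⟨a + a', fun v => by rw [der_add, ha, ha', add_mul]⟩
  smul_mem' := by
    rintro r Y ⟨h1, h2⟩
    refine ⟨fun j => Submodule.smul_mem _ r (h1 j), fun I _ _ c Φ hΦ => ?_⟩
    obtain ⟨a, ha⟩ := h2 I c Φ hΦ
    exact ⟨r * a, fun v => by rw [der_smul, ha, mul_assoc]⟩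

variable {F}

theorem mem_LieP {Y : ∀ j, End K (F j).V} : Y ∈ LieP F ↔ (∀ j, Y j ∈ (F j).skew) ∧
    ∀ (I : Type) [Fintype I] [DecidableEq I] (c : I → N)
    (Φ : MultilinearMap K (fun i => (F (c i)).V) K), SemiInv F c Φ →
      ∃ a : K, ∀ v, der F c Y Φ v = a * Φ v := Iff.rfl

theorem LieP_bracket {Y Y' : ∀ j, End K (F j).V} (hY : Y ∈ LieP F) (hY' : Y' ∈ LieP F) :
    Y * Y' - Y' * Y ∈ LieP F := by
  refine ⟨fun j => (F j).bracket_skew (hY.1 j) (hY'.1 j), fun I _ _ c Φ hΦ => ⟨0, fun v => ?_⟩⟩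
  obtain ⟨a, ha⟩ := hY.2 I c Φ hΦ
  obtain ⟨a', ha'⟩ := hY'.2 I c Φ hΦ
  rw [zero_mul]
  exact der_bracket Φ ha ha' v

theorem LieP_conj {Y : ∀ j, End K (F j).V} (hY : Y ∈ LieP F) (γ : Γ) :
    (fun j => (F j).ρ γ * Y j * (F j).ρ γ⁻¹) ∈ LieP F := by
  refine ⟨fun j => (F j).conj_skew γ (hY.1 j), fun I _ _ c Φ hΦ => ?_⟩
  obtain ⟨a, ha⟩ := hY.2 I c _ (semiInv_conj hΦ γ)
  exact ⟨a, fun v => der_conj Φ γ ha v⟩

variable (F)

/-- The component at `o` of the elements which vanish at the indices in `A`. -/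
def van (o : N) (A : Finset N) : Submodule K (End K (F o).V) where
  carrier := {X | ∃ Y ∈ LieP F, Y o = X ∧ ∀ j ∈ A, Y j = 0}
  zero_mem' := ⟨0, Submodule.zero_mem _, rfl, fun _ _ => rfl⟩
  add_mem' := by
    rintro X X' ⟨Y, h1, h2, h3⟩ ⟨Y', h1', h2', h3'⟩
    exact ⟨Y + Y', Submodule.add_mem _ h1 h1', by rw [Pi.add_apply, h2, h2'], fun j hj => by
      rw [Pi.add_apply, h3 j hj, h3' j hj, add_zero]⟩
  smul_mem' := by
    rintro r X ⟨Y, h1, h2, h3⟩
    exact ⟨r • Y, Submodule.smul_mem _ r h1, by rw [Pi.smul_apply, h2], fun j hj => by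
      rw [Pi.smul_apply, h3 j hj, smul_zero]⟩

variable {F} {o : N} {A A' : Finset N}

theorem mem_van {X : End K (F o).V} :
    X ∈ van F o A ↔ ∃ Y ∈ LieP F, Y o = X ∧ ∀ j ∈ A, Y j = 0 := Iff.rfl

theorem van_le : van F o A ≤ (F o).skew := by
  rintro X ⟨Y, h1, rfl, -⟩
  exact h1.1 o

theorem van_conj (g : Γ) {X : End K (F o).V} (hX : X ∈ van F o A) :
    (F o).ρ g * X * (F o).ρ g⁻¹ ∈ van F o A := by
  obtain ⟨Y, h1, rfl, h3⟩ := hX
  refine ⟨_, LieP_conj h1 g, rfl, fun j hj => ?_⟩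
  rw [h3 j hj, mul_zero, zero_mul]

theorem van_big (hbig : (F o).Big) : van F o A = ⊥ ∨ van F o A = (F o).skew :=
  hbig.2 _ van_le fun g _ hX => van_conj g hX

theorem van_bracket {X X' : End K (F o).V} (hX : X ∈ van F o A) (hX' : X' ∈ van F o A') :
    X * X' - X' * X ∈ van F o (A ∪ A') := by
  obtain ⟨Y, h1, rfl, h3⟩ := hX
  obtain ⟨Y', h1', rfl, h3'⟩ := hX'
  refine ⟨_, LieP_bracket h1 h1', rfl, fun j hj => ?_⟩
  change Y j * Y' j - Y' j * Y j = 0
  rw [Finset.mem_union] at hj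
  rcases hj with hj | hj
  · rw [h3 j hj, zero_mul, mul_zero, sub_zero]
  · rw [h3' j hj, zero_mul, mul_zero, sub_zero]

/-- The whole Lie algebra at the index `o`. -/
theorem van_all (hbig : (F o).Big) (h0 : van F o ∅ ≠ ⊥)
    (h1 : ∀ j, j ≠ o → van F o {j} ≠ ⊥) (A : Finset N) (hA : o ∉ A) :
    van F o A = (F o).skew := by
  induction A using Finset.induction_on with
  | empty => exact (van_big hbig).resolve_left h0
  | insert j A hj ih =>
    rw [Finset.mem_insert, not_or] at hA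
    have h2 := ih hA.2
    have h3 := (van_big (A := {j}) hbig).resolve_left (h1 j (Ne.symm hA.1))
    refine (van_big hbig).resolve_left fun hbot => ?_
    obtain ⟨X, hX, Y, hY, hXY⟩ := hbig.1
    apply hXY
    have h4 : X * Y - Y * X ∈ van F o ({j} ∪ A) :=
      van_bracket (h3 ▸ hX) (h2 ▸ hY)
    rw [← Finset.insert_eq, hbot, Submodule.mem_bot] at h4
    exact sub_eq_zero.1 h4

/-- Elements of the Lie algebra of one factor. -/
theorem single_mem (hall : van F o (univ.erase o) = (F o).skew) {X : End K (F o).V}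
    (hX : X ∈ (F o).skew) : (Pi.single o X : ∀ j, End K (F j).V) ∈ LieP F := by
  rw [← hall] at hX
  obtain ⟨Y, h1, rfl, h3⟩ := hX
  have h4 : Pi.single o (Y o) = Y := by
    funext j
    by_cases hj : j = o
    · subst hj
      rw [Pi.single_eq_same]
    · rw [Pi.single_eq_of_ne hj, h3 j (Finset.mem_erase.2 ⟨hj, Finset.mem_univ j⟩)]
  rw [h4]
  exact h1

theorem single_bracket (X Y : End K (F o).V) :
    (Pi.single o (X * Y - Y * X) : ∀ j, End K (F j).V) =
      Pi.single o X * Pi.single o Y - Pi.single o Y * Pi.single o X := by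
  funext j
  rw [Pi.sub_apply, Pi.mul_apply, Pi.mul_apply]
  by_cases hj : j = o
  · subst hj
    rw [Pi.single_eq_same, Pi.single_eq_same, Pi.single_eq_same]
  · rw [Pi.single_eq_of_ne hj, Pi.single_eq_of_ne hj, Pi.single_eq_of_ne hj, mul_zero, sub_zero]

variable (F o) in
/-- The elements of the Lie algebra which kill all forms. -/
def kil : Submodule K (End K (F o).V) where
  carrier := {X | X ∈ (F o).skew ∧ ∀ (I : Type) [Fintype I] [DecidableEq I] (c : I → N)
    (Φ : MultilinearMap K (fun i => (F (c i)).V) K), SemiInv F c Φ →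
      ∀ v, der F c (Pi.single o X) Φ v = 0}
  zero_mem' := ⟨Submodule.zero_mem _, fun I _ _ c Φ _ v => by rw [Pi.single_zero, der_zero]⟩
  add_mem' := by
    rintro X Y ⟨h1, h2⟩ ⟨h1', h2'⟩
    refine ⟨Submodule.add_mem _ h1 h1', fun I _ _ c Φ hΦ v => ?_⟩
    rw [Pi.single_add, der_add, h2 I c Φ hΦ, h2' I c Φ hΦ, add_zero]
  smul_mem' := by
    rintro r X ⟨h1, h2⟩
    refine ⟨Submodule.smul_mem _ r h1, fun I _ _ c Φ hΦ v => ?_⟩
    have h3 : (Pi.single o (r • X) : ∀ j, End K (F j).V) = r • Pi.single o X := by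
      funext j
      rw [Pi.smul_apply]
      by_cases hj : j = o
      · subst hj
        rw [Pi.single_eq_same, Pi.single_eq_same]
      · rw [Pi.single_eq_of_ne hj, Pi.single_eq_of_ne hj, smul_zero]
    rw [h3, der_smul, h2 I c Φ hΦ, mul_zero]

/-- **The Lie algebra of one factor kills all semi-invariant forms.** -/
theorem kills_of_all (hbig : (F o).Big)
    (hall : van F o (univ.erase o) = (F o).skew) {X : End K (F o).V} (hX : X ∈ (F o).skew)
    {I : Type} [Fintype I] [DecidableEq I] {c : I → N}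
    {Φ : MultilinearMap K (fun i => (F (c i)).V) K} (hΦ : SemiInv F c Φ) (v : ∀ i, (F (c i)).V) :
    der F c (Pi.single o X) Φ v = 0 := by
  have hbr : ∀ X ∈ (F o).skew, ∀ Y ∈ (F o).skew, X * Y - Y * X ∈ kil F o := by
    intro X hX Y hY
    refine ⟨(F o).bracket_skew hX hY, fun I _ _ c Φ hΦ v => ?_⟩
    obtain ⟨a, ha⟩ := (single_mem hall hX).2 I c Φ hΦ
    obtain ⟨a', ha'⟩ := (single_mem hall hY).2 I c Φ hΦ
    rw [single_bracket]
    exact der_bracket Φ ha ha' v
  have hk : kil F o = ⊥ ∨ kil F o = (F o).skew := by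
    refine hbig.2 _ (fun X hX => hX.1) fun g X hX => ⟨(F o).conj_skew g hX.1, ?_⟩
    intro I _ _ c Φ hΦ v
    have h1 := hX.2 I c _ (semiInv_conj hΦ g)
    have h2 := der_conj Φ (Y := Pi.single o X) (a := 0) g (fun v => by rw [h1, zero_mul]) v
    rw [zero_mul] at h2
    rw [← h2]
    congr 1
    funext j
    by_cases hj : j = o
    · subst hj
      rw [Pi.single_eq_same, Pi.single_eq_same]
    · rw [Pi.single_eq_of_ne hj, Pi.single_eq_of_ne hj, mul_zero, zero_mul]
  have hk' : kil F o = (F o).skew := by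
    refine hk.resolve_left fun hbot => ?_
    obtain ⟨X, hX, Y, hY, hXY⟩ := hbig.1
    apply hXY
    have h4 := hbr X hX Y hY
    rw [hbot, Submodule.mem_bot] at h4
    exact sub_eq_zero.1 h4
  rw [← hk'] at hX
  exact hX.2 I c Φ hΦ v

end Pool.Agent.H802T
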