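import Pool.Agent.H802T.Lie
import Pool.Agent.TH118.SG.Pair

/-!
# The slope operators belong to the Lie algebra
-/

set_option autoImplicit false
set_option linter.unusedSectionVars false

namespace Pool.Agent.H802T

open Module Finset Function
open Pool.Agent.TH118.SG (ext0 ext0_ne ext0_mul exists_op op_ext deriv_op mem_gen)

variable {K : Type} [Field K] [CharZero K] [IsAlgClosed K] {Γ : Type} [Group Γ]

/-- An injective endomorphism has no generalized eigenvectors for zero. -/
theorem gen_zero {V : Type} [AddCommGroup V] [Module K V] {f : End K V} (hf : Injective f)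
    {x : V} (hx : x ∈ f.maxGenEigenspace 0) : x = 0 := by
  obtain ⟨n, hn⟩ := mem_gen.1 hx
  rw [map_zero, sub_zero] at hn
  have h2 : ∀ n : ℕ, Injective (f ^ n) := by
    intro n
    induction n with
    | zero => exact fun x y h => h
    | succ n ih =>
      intro x y hxy
      rw [pow_succ, Module.End.mul_apply, Module.End.mul_apply] at hxy
      exact hf (ih hxy)
  exact h2 n (by rw [hn, map_zero])

theorem isSlope_iff {V : Type} [AddCommGroup V] [Module K V] {f : End K V} (hf : Injective f)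
    {θ : Additive Kˣ →+ K} {D : End K V} :
    IsSlope θ f D ↔ ∀ β, ∀ x ∈ f.maxGenEigenspace β, D x = ext0 θ β • x := by
  constructor
  · intro h β x hx
    by_cases hβ : β = 0
    · subst hβ
      rw [gen_zero hf hx, map_zero, smul_zero]
    · rw [ext0_ne θ hβ]
      exact h (Units.mk0 β hβ) x hx
  · intro h a x hx
    have h1 := h a x hx
    rw [ext0_ne θ a.ne_zero, Units.mk0_val] at h1
    exact h1

theorem PRep.inj (P : PRep K Γ) (g : Γ) : Injective (P.ρ g) := by
  intro x y hxy
  have h1 := congrArg (P.ρ g⁻¹) hxy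
  rwa [P.rinv', P.rinv'] at h1

theorem PRep.exists_slope (P : PRep K Γ) (g : Γ) (θ : Additive Kˣ →+ K) :
    ∃ D, IsSlope θ (P.ρ g) D := by
  obtain ⟨D, hD⟩ := exists_op (P.ρ g) (ext0 θ)
  exact ⟨D, (isSlope_iff (P.inj g)).2 hD⟩

theorem PRep.slope_unique (P : PRep K Γ) {g : Γ} {θ : Additive Kˣ →+ K} {D D' : End K P.V}
    (h : IsSlope θ (P.ρ g) D) (h' : IsSlope θ (P.ρ g) D') : D = D' :=
  op_ext (P.ρ g) fun β x hx => by
    rw [(isSlope_iff (P.inj g)).1 h β x hx, (isSlope_iff (P.inj g)).1 h' β x hx]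

variable {N : Type} [Fintype N] [DecidableEq N] (F : N → PRep K Γ)

/-- the block diagonal endomorphism -/
def blk (f : ∀ j, End K (F j).V) : End K (∀ j, (F j).V) :=
  LinearMap.pi fun j => f j ∘ₗ LinearMap.proj j

theorem blk_apply (f : ∀ j, End K (F j).V) (x : ∀ j, (F j).V) (j : N) : blk F f x j = f j (x j) :=
  rfl

theorem blk_pow (f : ∀ j, End K (F j).V) (n : ℕ) : blk F f ^ n = blk F (f ^ n) := by
  induction n with
  | zero =>
    rw [pow_zero, pow_zero]
    rfl
  | succ n ih =>
    rw [pow_succ, ih, pow_succ]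
    rfl

theorem blk_gen {f : ∀ j, End K (F j).V} {β : K} {x : ∀ j, (F j).V}
    (hx : x ∈ (blk F f).maxGenEigenspace β) (j : N) : x j ∈ (f j).maxGenEigenspace β := by
  obtain ⟨n, hn⟩ := mem_gen.1 hx
  refine mem_gen.2 ⟨n, ?_⟩
  have h1 : blk F f - algebraMap K _ β = blk F (fun j => f j - algebraMap K _ β) := by
    apply LinearMap.ext
    intro y
    funext j
    rfl
  rw [h1, blk_pow] at hn
  have h2 := congrFun hn j
  exact h2

theorem gen_scalar {b β : K} {z : K}
    (hz : z ∈ (b • (1 : End K K)).maxGenEigenspace β) (hz0 : z ≠ 0) : b = β := by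
  obtain ⟨n, hn⟩ := mem_gen.1 hz
  have h3 : ∀ n : ℕ, ((b • (1 : End K K) - algebraMap K (End K K) β) ^ n) z = (b - β) ^ n * z := by
    intro n
    induction n with
    | zero => simp
    | succ n ih =>
      rw [pow_succ', Module.End.mul_apply, ih, LinearMap.sub_apply, LinearMap.smul_apply,
        Module.End.one_apply, Module.algebraMap_end_apply, smul_eq_mul, smul_eq_mul]
      ring
  rw [h3] at hn
  have h4 := (mul_eq_zero.1 hn).resolve_right hz0
  exact sub_eq_zero.1 (eq_zero_of_pow_eq_zero h4)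

variable {F}

/-- The slope operators act by a scalar on semi-invariant forms. -/
theorem der_slope {g : Γ} {θ : Additive Kˣ →+ K} {D : ∀ j, End K (F j).V}
    (hD : ∀ j, IsSlope θ ((F j).ρ g) (D j)) {I : Type} [Fintype I] [DecidableEq I] {c : I → N}
    {Φ : MultilinearMap K (fun i => (F (c i)).V) K} {M : ℕ} (hM : 0 < M) {b : K}
    (hb : ∀ v, Φ (fun i => (F (c i)).ρ (g ^ M) (v i)) = b ^ M * Φ v) (v : ∀ i, (F (c i)).V) :
    der F c D Φ v = ext0 θ b * Φ v := by
  set Ψ : MultilinearMap K (fun _ : I => ∀ j, (F j).V) K :=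
    Φ.compLinearMap fun i => LinearMap.proj (c i) with hΨ
  have hΨa : ∀ w : I → ∀ j, (F j).V, Ψ w = Φ fun i => w i (c i) := fun w => rfl
  have hinj : Injective (blk F fun j => (F j).ρ g) := by
    intro x y hxy
    funext j
    exact (F j).inj g (congrFun hxy j)
  have h1 := deriv_op θ (blk F fun j => (F j).ρ g) hinj (b • (1 : End K K)) (Y := blk F D)
    (fun β x hx => ?_) (Y' := ext0 θ b • (1 : End K K)) (fun β z hz => ?_) (h := Ψ) hM
    (fun w => ?_) (fun i => Pi.single (c i) (v i))
  · have h2 : Ψ (fun i => Pi.single (c i) (v i)) = Φ v := by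
      rw [hΨa]
      congr 1
      funext i
      rw [Pi.single_eq_same]
    have h3 : ∀ i, Ψ (update (fun i => (Pi.single (c i) (v i) : ∀ j, (F j).V)) i
        (blk F D (Pi.single (c i) (v i)))) = Φ (update v i (D (c i) (v i))) := by
      intro i
      rw [hΨa]
      congr 1
      funext j
      by_cases hj : j = i
      · subst hj
        rw [update_self, update_self, blk_apply, Pi.single_eq_same]
      · rw [update_of_ne hj, update_of_ne hj, Pi.single_eq_same]
    rw [h2, Finset.sum_congr rfl fun i _ => h3 i] at h1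
    rw [der, h1, LinearMap.smul_apply, Module.End.one_apply, smul_eq_mul]
  · funext j
    rw [blk_apply, Pi.smul_apply]
    exact (isSlope_iff ((F j).inj g)).1 (hD j) β _ (blk_gen F hx j)
  · by_cases hz0 : z = 0
    · rw [hz0, map_zero, smul_zero]
    · rw [← gen_scalar hz hz0, LinearMap.smul_apply, Module.End.one_apply]
  · have h4 : ∀ i, ((blk F fun j => (F j).ρ g) ^ M) (w i) =
        fun j => (F j).ρ (g ^ M) (w i j) := by
      intro i
      rw [blk_pow]
      funext j
      rw [blk_apply, Pi.pow_apply, map_pow]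
    have h5 : ∀ z : K, ((b • (1 : End K K)) ^ M) z = b ^ M * z := by
      intro z
      rw [smul_pow, one_pow, LinearMap.smul_apply, Module.End.one_apply, smul_eq_mul]
    rw [h5, hΨa, hΨa, ← hb]
    congr 1
    funext i
    exact congrFun (h4 i) (c i)

/-- the form as a multilinear form -/
noncomputable def PRep.bm (P : PRep K Γ) (X : End K P.V) : MultilinearMap K (fun _ : Fin 2 => P.V) K :=
  Pool.Agent.TH118.SG.bm (P.form.compl₂ X)

theorem PRep.bm_apply (P : PRep K Γ) (X : End K P.V) (v : Fin 2 → P.V) :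
    P.bm X v = P.form (v 0) (X (v 1)) := rfl

theorem PRep.bm_der (P : PRep K Γ) (X Y : End K P.V) (x y : P.V) :
    ∑ i, P.bm X (update ![x, y] i (Y (![x, y] i))) = P.form (Y x) (X y) + P.form x (X (Y y)) := by
  rw [Fin.sum_univ_two, P.bm_apply, P.bm_apply]
  simp

/-- The slope operators and the form. -/
theorem PRep.form_slope (P : PRep K Γ) {g : Γ} {θ : Additive Kˣ →+ K} {D : End K P.V}
    (hD : IsSlope θ (P.ρ g) D) (x y : P.V) :
    P.form (D x) y + P.form x (D y) = ext0 θ (P.mult g) * P.form x y := by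
  have h1 := der_slope (F := fun _ : Unit => P) (D := fun _ => D) (fun _ => hD)
    (c := fun _ : Fin 2 => ()) (Φ := P.bm 1) (M := 1) one_pos (b := P.mult g) (fun v => ?_)
    ![x, y]
  · rw [der, P.bm_der] at h1
    exact h1
  · rw [pow_one, pow_one]
    exact P.act g (v 0) (v 1)

/-- The normalised slope operator. -/
theorem PRep.norm_slope (P : PRep K Γ) {g : Γ} {θ : Additive Kˣ →+ K} {D : End K P.V}
    (hD : IsSlope θ (P.ρ g) D) : D - (ext0 θ (P.mult g) / 2) • 1 ∈ P.skew := by
  intro x y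
  have h1 := P.form_slope hD x y
  simp only [LinearMap.sub_apply, LinearMap.smul_apply, Module.End.one_apply, map_sub, map_smul,
    smul_eq_mul]
  linear_combination h1

/-- **The slope operators belong to the Lie algebra.** -/
theorem slope_mem (g : Γ) (θ : Additive Kˣ →+ K) {D : ∀ j, End K (F j).V}
    (hD : ∀ j, IsSlope θ ((F j).ρ g) (D j)) :
    (fun j => D j - (ext0 θ ((F j).mult g) / 2) • 1) ∈ LieP F := by
  refine ⟨fun j => (F j).norm_slope (hD j), fun I _ _ c Φ hΦ => ?_⟩
  obtain ⟨Δ, hΔ, h1⟩ := hΦ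
  obtain ⟨M, hM, -, hgM⟩ := Subgroup.exists_pow_mem_of_index_ne_zero hΔ.index_ne_zero g
  obtain ⟨μ, hμ⟩ := h1 _ hgM
  obtain ⟨b, hb⟩ := IsAlgClosed.exists_pow_nat_eq μ hM
  refine ⟨ext0 θ b - ∑ i, ext0 θ ((F (c i)).mult g) / 2, fun v => ?_⟩
  have h2 : (fun j => D j - (ext0 θ ((F j).mult g) / 2) • (1 : End K (F j).V)) =
      D + (-1 : K) • fun j => (ext0 θ ((F j).mult g) / 2) • (1 : End K (F j).V) := by
    funext j
    rw [Pi.add_apply, Pi.smul_apply, neg_one_smul, sub_eq_add_neg]
  rw [h2, der_add, der_smul, der_slope hD hM (b := b) (fun v => by rw [hμ v, hb])]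
  have h3 : der F c (fun j => (ext0 θ ((F j).mult g) / 2) • (1 : End K (F j).V)) Φ v =
      (∑ i, ext0 θ ((F (c i)).mult g) / 2) * Φ v := by
    rw [der, Finset.sum_mul]
    refine Finset.sum_congr rfl fun i _ => ?_
    rw [LinearMap.smul_apply, Module.End.one_apply, MultilinearMap.map_update_smul,
      update_eq_self, smul_eq_mul]
  rw [h3]
  ring

/-- The Lie algebra is not zero. -/
theorem van_ne_bot {o : N} (hyp : (F o).Hyperbolic) : van F o ∅ ≠ ⊥ := by
  obtain ⟨g, x, y, hx0, hy0, a, b, hx, hy, hab⟩ := hyp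
  change (F o).ρ g x = a • x at hx
  change (F o).ρ g y = b • y at hy
  have ha0 : a ≠ 0 := by
    rintro rfl
    rw [zero_smul] at hx
    exact hx0 ((F o).inj g (by rw [hx, map_zero]))
  have hb0 : b ≠ 0 := by
    rintro rfl
    rw [zero_smul] at hy
    exact hy0 ((F o).inj g (by rw [hy, map_zero]))
  obtain ⟨θ, hθ⟩ := Pool.Agent.TH118.CR.exists_add (Units.mk0 a ha0 * (Units.mk0 b hb0)⁻¹)
    (fun k hk h => hab k hk (by
      rw [mul_pow, inv_pow, mul_inv_eq_one] at h
      exact congrArg Units.val h))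
  have hθ' : ext0 θ a ≠ ext0 θ b := by
    intro h
    apply hθ
    rw [ofMul_mul, ofMul_inv, map_add, map_neg, ← ext0_ne θ ha0, ← ext0_ne θ hb0, h,
      add_neg_cancel]
  choose D hD using fun j => (F j).exists_slope g θ
  intro hbot
  have h1 : D o - (ext0 θ ((F o).mult g) / 2) • 1 ∈ van F o ∅ :=
    ⟨_, slope_mem g θ hD, rfl, fun j hj => absurd hj (Finset.notMem_empty j)⟩
  rw [hbot, Submodule.mem_bot, sub_eq_zero] at h1
  have hgen : ∀ (w : (F o).V) (α : K), (F o).ρ g w = α • w → D o w = ext0 θ α • w := by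
    intro w α h
    refine (isSlope_iff ((F o).inj g)).1 (hD o) α w (mem_gen.2 ⟨1, ?_⟩)
    rw [pow_one, LinearMap.sub_apply, h, Module.algebraMap_end_apply, sub_self]
  have h2 := hgen x a hx
  have h3 := hgen y b hy
  rw [h1, LinearMap.smul_apply, Module.End.one_apply] at h2 h3
  apply hθ'
  have h4 : (ext0 θ ((F o).mult g) / 2 - ext0 θ a) • x = 0 := by rw [sub_smul, h2, sub_self]
  have h5 : (ext0 θ ((F o).mult g) / 2 - ext0 θ b) • y = 0 := by rw [sub_smul, h3, sub_self]
  have h6 := (smul_eq_zero.1 h4).resolve_right hx0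
  have h7 := (smul_eq_zero.1 h5).resolve_right hy0
  linear_combination h7 - h6

end Pool.Agent.H802T
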