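import Pool.Agent.W437.HD.Darboux
import Pool.Agent.TH125.Nod.Fft

/-!
# Bases with a rational orthogonal Gram matrix, and contractions of products of the form
-/

set_option autoImplicit false
set_option linter.unusedSectionVars false

open Finset Function Module

namespace Pool.Agent.H802T

universe u v

open Pool.Agent.TH125.Nod

/-- The matrix has rational entries and is orthogonal. -/
structure NiceMat {K : Type u} [Field K] {J : Type} [Fintype J] [DecidableEq J] (M : Matrix J J K) :
    Prop where
  rat : ∀ i j, ∃ q : ℚ, M i j = q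
  orth : ∀ i j, ∑ k, M i k * M j k = if i = j then 1 else 0

/-- **Nice bases.** -/
theorem exists_nice {K : Type u} [Field K] [CharZero K] [IsAlgClosed K] {V : Type v}
    [AddCommGroup V] [Module K V] [FiniteDimensional K V] {B : V →ₗ[K] V →ₗ[K] K} {s : ℤ}
    (hs : s = 1 ∨ s = -1) (hsy : ∀ x y, B x y = (s : K) * B y x)
    (hnd : ∀ x, (∀ y, B x y = 0) → x = 0) :
    ∃ t : Basis (Fin (finrank K V)) K V, NiceMat (Matrix.of fun i j => B (t i) (t j)) := by
  classical
  rcases hs with rfl | rfl
  · have hsymm : B.IsSymm := ⟨fun x y => by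
      rw [RingHom.id_apply, hsy, Int.cast_one, one_mul]⟩
    have : Invertible (2 : K) := invertibleOfNonzero two_ne_zero
    obtain ⟨v, hv⟩ := LinearMap.BilinForm.exists_orthogonal_basis hsymm
    have hv' : ∀ i j, i ≠ j → B (v i) (v j) = 0 := fun i j hij => hv hij
    have h1 : ∀ i, B (v i) (v i) ≠ 0 := by
      intro i h0
      have h2 : v i = 0 := hnd _ fun y => by
        rw [← v.sum_repr y, map_sum]
        refine Finset.sum_eq_zero fun j _ => ?_
        rw [map_smul]
        by_cases hij : i = j
        · subst hij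
          rw [h0, smul_zero]
        · rw [hv' i j hij, smul_zero]
      exact v.ne_zero i h2
    have h2 : ∀ i, ∃ a : K, a ^ 2 = B (v i) (v i) := fun i =>
      IsAlgClosed.exists_pow_nat_eq _ two_pos
    choose a ha using h2
    have ha0 : ∀ i, a i ≠ 0 := fun i h0 => h1 i (by rw [← ha, h0, zero_pow two_ne_zero])
    let t : Basis (Fin (finrank K V)) K V := v.unitsSMul fun i =>
      (Units.mk0 (a i)⁻¹ (inv_ne_zero (ha0 i)))
    have ht : ∀ i, t i = (a i)⁻¹ • v i := fun i => Basis.unitsSMul_apply i
    have h3 : ∀ i j, B (t i) (t j) = if i = j then 1 else 0 := by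
      intro i j
      rw [ht, ht, map_smul, map_smul, LinearMap.smul_apply, smul_eq_mul, smul_eq_mul]
      by_cases hij : i = j
      · subst hij
        rw [if_pos rfl, ← ha i]
        have := ha0 i
        field_simp
      · rw [if_neg hij, hv' i j hij, mul_zero, mul_zero]
    refine ⟨t, ⟨fun i j => ?_, fun i j => ?_⟩⟩
    · rw [Matrix.of_apply, h3]
      by_cases hij : i = j
      · exact ⟨1, by rw [if_pos hij, Rat.cast_one]⟩
      · exact ⟨0, by rw [if_neg hij, Rat.cast_zero]⟩
    · simp only [Matrix.of_apply, h3]
      rw [Finset.sum_eq_single i]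
      · rw [if_pos rfl, one_mul]
        by_cases hij : i = j
        · rw [if_pos hij, if_pos hij.symm]
        · rw [if_neg hij, if_neg (Ne.symm hij)]
      · intro k _ hk
        rw [if_neg (Ne.symm hk), zero_mul]
      · intro h
        exact absurd (Finset.mem_univ _) h
  · have halt : ∀ x, B x x = 0 := by
      intro x
      have h1 := hsy x x
      push_cast at h1
      have h2 : (2 : K) * B x x = 0 := by linear_combination h1
      exact (mul_eq_zero.1 h2).resolve_left two_ne_zero
    have hnd' : ∀ x, (∀ y, B y x = 0) → x = 0 := by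
      intro x hx
      refine hnd x fun y => ?_
      rw [hsy, hx, mul_zero]
    obtain ⟨R, hR, hR', e, inv, jj, hinv, -, hjj, hj1, he⟩ :=
      Pool.Agent.W437.HD.exists_darboux (finrank K V) V B halt hnd' le_rfl
    have hc : Fintype.card R = finrank K V := (Module.finrank_eq_card_basis e).symm
    let f : R ≃ Fin (finrank K V) := Fintype.equivFinOfCardEq hc
    refine ⟨e.reindex f, ⟨fun i j => ?_, fun i j => ?_⟩⟩
    · rw [Matrix.of_apply, Basis.reindex_apply, Basis.reindex_apply, he,
        Pool.Agent.H204R3.SP.JJ]
      by_cases hij : f.symm j = inv (f.symm i)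
      · rw [if_pos hij]
        rcases hj1 (f.symm i) with h | h
        · exact ⟨1, by rw [h, Rat.cast_one]⟩
        · exact ⟨-1, by rw [h, Rat.cast_neg, Rat.cast_one]⟩
      · exact ⟨0, by rw [if_neg hij, Rat.cast_zero]⟩
    · simp only [Matrix.of_apply, Basis.reindex_apply, he, Pool.Agent.H204R3.SP.JJ]
      rw [Finset.sum_eq_single (f (inv (f.symm i)))]
      · rw [Equiv.symm_apply_apply, if_pos rfl]
        by_cases hij : i = j
        · subst hij
          rw [if_pos rfl, if_pos rfl]
          rcases hj1 (f.symm i) with h | h <;> rw [h] <;> ring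
        · rw [if_neg hij, if_neg, mul_zero]
          intro h
          have h1 := congrArg inv h
          rw [hinv, hinv] at h1
          exact hij (f.symm.injective h1)
      · intro k _ hk
        rw [if_neg, zero_mul]
        intro h
        apply hk
        rw [← h, Equiv.apply_symm_apply]
      · intro h
        exact absurd (Finset.mem_univ _) h

/-- **Forms generated by products whose contractions with all products vanish.** -/
theorem eq_zero_of_contr {K : Type u} [Field K] [CharZero K] {J : Type} [Fintype J]
    [DecidableEq J] {E : Type v} [AddCommGroup E] [Module K E] {M : Matrix J J K} (hM : NiceMat M)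
    {S : Type} [Fintype S] [DecidableEq S] {F : (S → J) → E}
    (hF : F ∈ Gen (fun _ : J => ()) M (fun _ : S => ()))
    (h0 : ∀ (m : ℕ) (e : Fin m × Fin 2 ≃ S),
      ∑ r, (∏ l, M (r (e (l, 0))) (r (e (l, 1)))) • F r = 0) : F = 0 := by
  classical
  choose q hq using hM.rat
  -- the rational functions
  let G : Submodule ℚ ((S → J) → ℚ) := Submodule.span ℚ
    {g | ∃ (m : ℕ) (e : Fin m × Fin 2 ≃ S), g = fun r => ∏ l, q (r (e (l, 0))) (r (e (l, 1)))}
  have hcast : ∀ (m : ℕ) (e : Fin m × Fin 2 ≃ S) (r : S → J),
      ∏ l, M (r (e (l, 0))) (r (e (l, 1))) =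
        ((∏ l, q (r (e (l, 0))) (r (e (l, 1))) : ℚ) : K) := by
    intro m e r
    rw [Rat.cast_prod]
    exact Finset.prod_congr rfl fun l _ => hq _ _
  have key : ∀ (φ : E →ₗ[K] K) (lam : K →ₗ[ℚ] ℚ), (fun r => lam (φ (F r))) ∈ G := by
    clear h0
    induction hF using Submodule.span_induction with
    | mem F hF =>
      obtain ⟨m, e, w, rfl⟩ := hF
      intro φ lam
      have h1 : (fun r => lam (φ (gen (fun _ : J => ()) M (fun _ : S => ()) e w r))) =
          lam (φ w) • fun r => ∏ l, q (r (e (l, 0))) (r (e (l, 1))) := by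
        funext r
        rw [gen, if_pos (fun _ => rfl), map_smul, hcast, smul_eq_mul, Pi.smul_apply, smul_eq_mul]
        have h2 : ((∏ l, q (r (e (l, 0))) (r (e (l, 1))) : ℚ) : K) * φ w =
            (∏ l, q (r (e (l, 0))) (r (e (l, 1))) : ℚ) • φ w := by
          rw [Rat.smul_def]
        rw [h2, map_smul, smul_eq_mul, mul_comm]
      rw [h1]
      exact Submodule.smul_mem _ _ (Submodule.subset_span ⟨m, e, rfl⟩)
    | zero =>
      intro φ lam
      have h1 : (fun r : S → J => lam (φ ((0 : (S → J) → E) r))) = 0 := by
        funext r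
        rw [Pi.zero_apply, map_zero, map_zero]
        rfl
      rw [h1]
      exact Submodule.zero_mem _
    | add F F' _ _ hF hF' =>
      intro φ lam
      have h1 : (fun r : S → J => lam (φ ((F + F') r))) =
          (fun r => lam (φ (F r))) + fun r => lam (φ (F' r)) := by
        funext r
        rw [Pi.add_apply, Pi.add_apply, map_add, map_add]
      rw [h1]
      exact Submodule.add_mem _ (hF φ lam) (hF' φ lam)
    | smul x F _ hF =>
      intro φ lam
      have h1 : (fun r : S → J => lam (φ ((x • F) r))) = fun r => lam ((x • φ) (F r)) := by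
        funext r
        rw [Pi.smul_apply, map_smul, LinearMap.smul_apply]
      rw [h1]
      exact hF (x • φ) lam
  funext r
  rw [Pi.zero_apply]
  by_contra hne
  obtain ⟨φ, hφ⟩ : ∃ φ : Module.Dual K E, φ (F r) ≠ 0 := by
    by_contra hcon
    push Not at hcon
    exact hne ((Module.forall_dual_apply_eq_zero_iff K _).1 hcon)
  obtain ⟨lam, hlam⟩ : ∃ lam : Module.Dual ℚ K, lam (φ (F r)) ≠ 0 := by
    by_contra hcon
    push Not at hcon
    exact hφ ((Module.forall_dual_apply_eq_zero_iff ℚ _).1 hcon)
  have h1 : ∀ g ∈ G, ∑ r, g r * lam (φ (F r)) = 0 := by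
    intro g hg
    induction hg using Submodule.span_induction with
    | mem g hg =>
      obtain ⟨m, e, rfl⟩ := hg
      have h2 := congrArg (fun x => lam (φ x)) (h0 m e)
      simp only [map_sum, map_zero] at h2
      rw [← h2]
      refine Finset.sum_congr rfl fun r _ => ?_
      rw [map_smul, hcast, smul_eq_mul, ← Rat.smul_def, map_smul, smul_eq_mul]
    | zero => simp
    | add x y _ _ hx hy =>
      simp only [Pi.add_apply, add_mul, Finset.sum_add_distrib]
      rw [hx, hy, add_zero]
    | smul c x _ hx =>
      simp only [Pi.smul_apply, smul_eq_mul, mul_assoc]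
      rw [← Finset.mul_sum, hx, mul_zero]
  have h2 := h1 _ (key φ lam)
  have h3 := (Finset.sum_eq_zero_iff_of_nonneg fun r _ => mul_self_nonneg (lam (φ (F r)))).1 h2 r
    (Finset.mem_univ _)
  exact hlam (mul_self_eq_zero.1 h3)

end Pool.Agent.H802T
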