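import Pool.Agent.H802T.Step
import Pool.Agent.H802T.Nice
import Pool.Agent.TH125.Gal.Fpp

/-!
# Contractions of classes on products with powers by algebraic classes
-/

open CategoryTheory AlgebraicGeometry Finset Function

set_option linter.unusedSectionVars false

universe u v w

namespace Pool.Agent.H802T

open Pool.Agent.TH125.Gal
open Pool.Agent.H914 Pool.Agent.H914.VarClass Pool.Agent.H914.VarClass.Obj
  Pool.Agent.H914.WeilCohomology Pool.Agent.H281R3.HT Pool.Agent.W552

variable {k : Type u} [Field k] {𝒱 : VarClass k} {ops : CycleOps 𝒱}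
  {W : WeilCohomology.{u, v} ops} {X Y Z : 𝒱.Obj}

theorem tr_mono' (P : Polarized 𝒱) (n : ℕ) (a : Fin (n + 1) → W.H P.X) :
    W.tr (nest ops n fun _ => P).X (mono (prj ops n fun _ => P) a) =
      ∏ p, W.tr P.X (a p) := by
  induction n with
  | zero =>
    rw [Fin.prod_univ_one]
    exact congrArg (W.tr P.X) ((mono_one (prj ops 0 fun _ => P) a).trans
      (W.map_id P.X (a 0)))
  | succ n ih =>
    have h1 : mono (prj ops (n + 1) fun _ => P) a =
        W.map (fst P.X (nest ops n fun _ => P).X) (a 0) *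
          W.map (snd P.X (nest ops n fun _ => P).X) (mono (prj ops n fun _ => P)
            fun p => a p.succ) := by
      rw [map_mono]
      exact mono_succ (prj ops (n + 1) fun _ => P) a
    rw [Fin.prod_univ_succ, ← ih]
    exact (congrArg (W.tr (P.X.prod (nest ops n fun _ => P).X)) h1).trans (W.tr_prod _ _)

/-- the types of classes -/
def Ty (W : WeilCohomology.{u, v} ops) (X : 𝒱.Obj) (d : ℕ) (x : W.H X) : Prop :=
  (d = 0 ∧ x ∈ algSpan W X) ∨ (d = X.dim ∧ x ∈ W.gr X X.dim)

theorem Ty.comm {d d' : ℕ} {x y : W.H X} (hx : Ty W X d x) (hy : Ty W X d' y) (p q : Y ⟶ X) :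
    W.map p x * W.map q y = (-1 : W.K) ^ (d * d') • (W.map q y * W.map p x) := by
  rcases hx with ⟨rfl, hx⟩ | ⟨rfl, hx⟩
  · rw [zero_mul, pow_zero, one_smul]
    exact alg_comm (algSpan_map p hx) _
  · rcases hy with ⟨rfl, hy⟩ | ⟨rfl, hy⟩
    · rw [mul_zero, pow_zero, one_smul]
      exact (alg_comm (algSpan_map q hy) _).symm
    · exact W.comm (W.map_mem _ hx) (W.map_mem _ hy)

/-- The sign of the product of two monomials. -/
theorem mono_mul {N : ℕ} (D D' : Fin N → ℕ) : ∃ ε : ℤ, ε * ε = 1 ∧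
    ∀ (π : Fin N → (Y ⟶ X)) (v w : Fin N → W.H X), (∀ p, Ty W X (D p) (v p)) →
      (∀ p, Ty W X (D' p) (w p)) →
      mono π v * mono π w = (ε : W.K) • mono π fun p => v p * w p := by
  let DD : Fin N × Fin 2 → ℕ := fun a => if a.2 = 0 then D a.1 else D' a.1
  let L : List (Fin N × Fin 2) := (List.finRange N).flatMap fun p => [(p, 0), (p, 1)]
  let L' : List (Fin N × Fin 2) := ((List.finRange N).map fun p => (p, 0)) ++
    (List.finRange N).map fun p => (p, 1)
  have hL : L.Nodup := by
    rw [List.nodup_flatMap]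
    refine ⟨fun p _ => by simp, (List.nodup_finRange N).imp ?_⟩
    intro p q hpq
    simp only [List.disjoint_iff_ne, List.mem_cons, List.not_mem_nil, or_false]
    rintro a (rfl | rfl) b (rfl | rfl) h <;> exact hpq (congrArg Prod.fst h)
  have hL' : L'.Nodup := by
    rw [List.nodup_append]
    refine ⟨(List.nodup_finRange N).map fun p q h => congrArg Prod.fst h,
      (List.nodup_finRange N).map fun p q h => congrArg Prod.fst h, ?_⟩
    intro a ha b hb h
    obtain ⟨p, -, rfl⟩ := List.mem_map.1 ha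
    obtain ⟨q, -, rfl⟩ := List.mem_map.1 hb
    exact absurd (congrArg Prod.snd h) (show (0 : Fin 2) ≠ 1 by decide)
  have hperm : L.Perm L' := by
    refine (List.perm_ext_iff_of_nodup hL hL').2 fun a => ?_
    obtain ⟨p, i⟩ := a
    have h1 : (p, i) ∈ L := by
      rw [List.mem_flatMap]
      refine ⟨p, List.mem_finRange p, ?_⟩
      fin_cases i <;> simp
    have h2 : (p, i) ∈ L' := by
      rw [List.mem_append]
      fin_cases i
      · exact Or.inl (List.mem_map.2 ⟨p, List.mem_finRange p, rfl⟩)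
      · exact Or.inr (List.mem_map.2 ⟨p, List.mem_finRange p, rfl⟩)
    exact iff_of_true h1 h2
  obtain ⟨ε, h1, h2⟩ := perm_sign (K := W.K) (A := W.H Y) DD hperm hL
  refine ⟨ε, h1, fun π v w hv hw => ?_⟩
  let x : Fin N × Fin 2 → W.H Y := fun a =>
    if a.2 = 0 then W.map (π a.1) (v a.1) else W.map (π a.1) (w a.1)
  have hty : ∀ a : Fin N × Fin 2, ∃ y : W.H X, Ty W X (DD a) y ∧ x a = W.map (π a.1) y := by
    rintro ⟨p, i⟩
    by_cases hi : i = 0
    · subst hi
      exact ⟨v p, hv p, rfl⟩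
    · refine ⟨w p, ?_, ?_⟩
      · change Ty W X (if i = 0 then D p else D' p) (w p)
        rw [if_neg hi]
        exact hw p
      · change (if i = 0 then W.map (π p) (v p) else W.map (π p) (w p)) = _
        rw [if_neg hi]
  have h3 := h2 x (fun a b _ => by
    obtain ⟨y, hy, hxy⟩ := hty a
    obtain ⟨y', hy', hxy'⟩ := hty b
    rw [hxy, hxy']
    exact hy.comm hy' _ _)
  have h4 : (L'.map x).prod = mono π v * mono π w := by
    rw [List.map_append, List.prod_append, List.map_map, List.map_map, mono, mono,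
      List.ofFn_eq_map, List.ofFn_eq_map]
    rfl
  have h5 : (L.map x).prod = mono π fun p => v p * w p := by
    rw [mono, List.ofFn_eq_map]
    change (((List.finRange N).flatMap fun p => [(p, (0 : Fin 2)), (p, 1)]).map x).prod = _
    rw [List.map_flatMap]
    generalize List.finRange N = M
    induction M with
    | nil => rfl
    | cons p M ih =>
      rw [List.flatMap_cons, List.prod_append, ih, List.map_cons, List.prod_cons]
      congr 1
      simp only [List.map_cons, List.map_nil, List.prod_cons, List.prod_nil, mul_one]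
      rw [map_mul]
      rfl
  rw [← h4, h3, h5]

section

variable {P : Polarized 𝒱} {n : ℕ} {s : SB W P.X}

theorem ty_es (hmid : transcendental W P.X ≤ W.gr P.X P.X.dim)
    (c₀ : Fin (n + 1) → Option (Fin s.NC)) (r : Free c₀ → Fin s.NT) (p : Fin (n + 1)) :
    Ty W P.X ((c₀ p).elim P.X.dim fun _ => 0) (s.es (comb c₀ r p)) := by
  cases h : c₀ p with
  | none =>
    rw [comb_none r ⟨p, h⟩]
    exact Or.inr ⟨rfl, hmid (s.uT _).2⟩
  | some i =>
    rw [comb_some r h]
    exact Or.inl ⟨rfl, (s.uC i).2⟩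

theorem ty_e (hmid : transcendental W P.X ≤ W.gr P.X P.X.dim)
    (r : Fin (n + 1) → Fin s.NC ⊕ Fin s.NT) (p : Fin (n + 1)) :
    Ty W P.X ((pat r p).elim P.X.dim fun _ => 0) (s.e (r p)) := by
  unfold pat
  cases h : r p with
  | inl i =>
    rw [s.e_inl]
    exact Or.inl ⟨rfl, (s.bC i).2⟩
  | inr i =>
    rw [s.e_inr]
    exact Or.inr ⟨rfl, hmid (s.bT i).2⟩

/-- The pairing of monomials. -/
theorem tr_es_e (hmid : transcendental W P.X ≤ W.gr P.X P.X.dim)
    (c₀ : Fin (n + 1) → Option (Fin s.NC)) : ∃ ε : ℤ, ε * ε = 1 ∧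
    ∀ (r : Free c₀ → Fin s.NT) (r' : Fin (n + 1) → Fin s.NC ⊕ Fin s.NT),
      W.tr _ (mono (prj ops n fun _ => P) (fun p => s.es (comb c₀ r p)) *
        mono (prj ops n fun _ => P) fun p => s.e (r' p)) =
      (ε : W.K) * ∏ p, bil W P.X (s.es (comb c₀ r p)) (s.e (r' p)) := by
  obtain ⟨ε, h1, h2⟩ := mono_mul (W := W) (X := P.X) (Y := (nest ops n fun _ => P).X)
    (fun p : Fin (n + 1) => (c₀ p).elim P.X.dim fun _ => 0)
    (fun p => (c₀ p).elim P.X.dim fun _ => 0)
  refine ⟨ε, h1, fun r r' => ?_⟩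
  by_cases hpat : pat r' = c₀
  · rw [h2 (prj ops n fun _ => P) _ _ (ty_es hmid c₀ r) (fun p => by
      have h3 := ty_e (s := s) hmid r' p
      rw [hpat] at h3
      exact h3), map_smul, smul_eq_mul, tr_mono']
    rfl
  · obtain ⟨ε', -, h3⟩ := mono_mul (W := W) (X := P.X) (Y := (nest ops n fun _ => P).X)
      (fun p : Fin (n + 1) => (c₀ p).elim P.X.dim fun _ => 0)
      (fun p => (pat r' p).elim P.X.dim fun _ => 0)
    rw [h3 (prj ops n fun _ => P) _ _ (ty_es hmid c₀ r) (ty_e (s := s) hmid r'), map_smul,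
      smul_eq_mul, tr_mono']
    obtain ⟨p, hp⟩ := Function.ne_iff.1 hpat
    have h4 : ∏ p, bil W P.X (s.es (comb c₀ r p)) (s.e (r' p)) = 0 := by
      refine Finset.prod_eq_zero (Finset.mem_univ p) ?_
      rw [s.es_e, if_neg]
      intro h5
      apply hp
      have h6 : pat r' p = pat (comb c₀ r) p := by
        unfold pat
        rw [h5]
      rw [h6, pat_comb]
    have h5 : ∏ p, W.tr P.X (s.es (comb c₀ r p) * s.e (r' p)) = 0 := h4
    rw [h4, h5, mul_zero, mul_zero]

variable {b : Module.Basis (Fin (n + 1) → Fin s.NC ⊕ Fin s.NT) W.K (W.H (nest ops n fun _ => P).X)}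
  (hb : ∀ r, b r = mono (prj ops n fun _ => P) fun p => s.e (r p))

theorem cn_add_left {A B : 𝒱.Obj} (u u' : W.H A) (c : W.H (A.prod B)) :
    cn (u + u') c = cn u c + cn u' c := by
  rw [cn, map_add, add_mul, map_add]
  rfl

theorem cn_smul_left {A B : 𝒱.Obj} (r : W.K) (u : W.H A) (c : W.H (A.prod B)) :
    cn (r • u) c = r • cn u c := by
  rw [cn, map_smul, smul_mul_assoc, map_smul]
  rfl

theorem cn_zero_left {A B : 𝒱.Obj} (c : W.H (A.prod B)) : cn (0 : W.H A) c = 0 := by
  rw [cn, map_zero, zero_mul, map_zero]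

theorem cn_sum_left {A B : 𝒱.Obj} {R : Type*} (t : Finset R) (u : R → W.H A)
    (c : W.H (A.prod B)) : cn (∑ r ∈ t, u r) c = ∑ r ∈ t, cn (u r) c := by
  classical
  induction t using Finset.induction_on with
  | empty => rw [Finset.sum_empty, Finset.sum_empty, cn_zero_left]
  | insert a t ha ih => rw [Finset.sum_insert ha, Finset.sum_insert ha, cn_add_left, ih]

include hb in
/-- The contraction with a monomial. -/
theorem cn_mono (hmid : transcendental W P.X ≤ W.gr P.X P.X.dim)
    (c₀ : Fin (n + 1) → Option (Fin s.NC)) : ∃ ε : ℤ, ε * ε = 1 ∧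
    ∀ (r : Free c₀ → Fin s.NT) (c : W.H ((nest ops n fun _ => P).X.prod Z)),
      cn (mono (prj ops n fun _ => P) fun p => s.es (comb c₀ r p)) c =
        (ε : W.K) • hml s.e b c fun p => s.es (comb c₀ r p) := by
  obtain ⟨ε, h1, h2⟩ := tr_es_e (s := s) (n := n) hmid c₀
  refine ⟨ε, h1, fun r c => ?_⟩
  have h3 : ∀ (R : Finset (Fin (n + 1) → Fin s.NC ⊕ Fin s.NT))
      (x : (Fin (n + 1) → Fin s.NC ⊕ Fin s.NT) → W.H ((nest ops n fun _ => P).X.prod Z)),
      cn (mono (prj ops n fun _ => P) fun p => s.es (comb c₀ r p)) (∑ r' ∈ R, x r') =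
        ∑ r' ∈ R, cn (mono (prj ops n fun _ => P) fun p => s.es (comb c₀ r p)) (x r') := by
    classical
    intro R x
    induction R using Finset.induction_on with
    | empty => rw [Finset.sum_empty, Finset.sum_empty, cn, mul_zero, map_zero]
    | insert a t ha ih => rw [Finset.sum_insert ha, Finset.sum_insert ha, cn_add, ih]
  conv_lhs => rw [expand b c]
  conv_rhs => rw [expand b c]
  rw [h3, hml_sum hb, Finset.smul_sum]
  refine Finset.sum_congr rfl fun r' _ => ?_
  rw [cn_ext, hb r', hml_mono hb, smul_smul, h2]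

end

end Pool.Agent.H802T
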