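import Pool.Agent.H802T.Step

/-!
# Generation of the cohomology of products with powers
-/

open CategoryTheory AlgebraicGeometry Finset Function

set_option linter.unusedSectionVars false

universe u

namespace Pool.Agent.H802T

open Pool.Agent.TH125.Gal
open Pool.Agent.H914 Pool.Agent.H914.VarClass Pool.Agent.H914.VarClass.Obj
  Pool.Agent.H914.WeilCohomology Pool.Agent.H281R3.HT Pool.Agent.W552

variable {k : Type u} [Field k] {𝒱 : VarClass k} {ops : CycleOps 𝒱}
  {W : WeilCohomology.{u, 0} ops} {P : Polarized 𝒱} {n : ℕ} {Z : 𝒱.Obj} {s : SB W P.X}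
  {Γ : Type} [Group Γ] {χ : Γ →* W.Kˣ} {ρ : Γ →* (W.H P.X ≃ₐ[W.K] W.H P.X)}
  {τ : Γ →* (W.H Z ≃ₐ[W.K] W.H Z)}
  {υ : Γ →* (W.H ((nest ops n fun _ => P).X.prod Z) ≃ₐ[W.K]
    W.H ((nest ops n fun _ => P).X.prod Z))}
  {b : Module.Basis (Fin (n + 1) → Fin s.NC ⊕ Fin s.NT) W.K (W.H (nest ops n fun _ => P).X)}
  (hb : ∀ r, b r = mono (prj ops n fun _ => P) fun p => s.e (r p))

include hb

theorem hS_add (c c' : W.H ((nest ops n fun _ => P).X.prod Z))
    (c₀ : Fin (n + 1) → Option (Fin s.NC)) : hS s b (c + c') c₀ = hS s b c c₀ + hS s b c' c₀ := by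
  refine MultilinearMap.ext fun v => ?_
  rw [_root_.add_apply, hS_apply, hS_apply, hS_apply, hml_add hb]

theorem hS_smul (x : W.K) (c : W.H ((nest ops n fun _ => P).X.prod Z))
    (c₀ : Fin (n + 1) → Option (Fin s.NC)) : hS s b (x • c) c₀ = x • hS s b c c₀ := by
  refine MultilinearMap.ext fun v => ?_
  rw [_root_.smul_apply, hS_apply, hS_apply, hml_smul hb]

/-- **Equivariance.** -/
theorem hS_act (hG : IsGalois W χ P.X ρ) (hP : IsPowAct W P n Z ρ τ υ) {g : Γ}
    (hg : ∀ i, ρ g (s.bC i) = (χ g : W.K) ^ s.jC i • (s.bC i : W.H P.X))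
    (c : W.H ((nest ops n fun _ => P).X.prod Z)) (c₀ : Fin (n + 1) → Option (Fin s.NC))
    (v : Free c₀ → transcendental W P.X) :
    hS s b (υ g c) c₀ (fun p => rhoT hG g (v p)) =
      ((∏ p, ((χ g : W.K) ^ fixw s c₀ p)⁻¹) * ((χ g : W.K) ^ P.X.dim) ^ (n + 1)) •
        τ g (hS s b c c₀ v) := by
  have hχ : (χ g : W.K) ≠ 0 := Units.ne_zero _
  set V : Fin (n + 1) → W.H P.X := fun p =>
    if h : c₀ p = none then (v ⟨p, h⟩ : W.H P.X) else fixv s c₀ ⟨p, h⟩ with hV
  have h1 : (fun p => if h : c₀ p = none then ((rhoT hG g (v ⟨p, h⟩) : transcendental W P.X) :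
      W.H P.X) else fixv s c₀ ⟨p, h⟩) = fun p => ((χ g : W.K) ^ fixw s c₀ p)⁻¹ • ρ g (V p) := by
    funext p
    by_cases h : c₀ p = none
    · rw [dif_pos h, hV]
      beta_reduce
      rw [dif_pos h, fixw, h, rhoT_apply]
      simp
    · obtain ⟨i, hi⟩ := Option.ne_none_iff_exists'.1 h
      rw [dif_neg h, hV]
      beta_reduce
      rw [dif_neg h, fixv_some hi, uC_act hG s hg, fixw, hi, smul_smul]
      change _ = (((χ g : W.K) ^ (P.X.dim - s.jC i))⁻¹ * (χ g : W.K) ^ (P.X.dim - s.jC i)) •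
        (s.uC i : W.H P.X)
      rw [inv_mul_cancel₀ (pow_ne_zero _ hχ), one_smul]
  rw [hS_apply, h1, MultilinearMap.map_smul_univ, hml_equiv hb (bil_act hG g) (hP g).1 (hP g).2,
    smul_smul, hS_apply]

omit hb in
theorem exists_pattern {c : W.H ((nest ops n fun _ => P).X.prod Z)} (hc : c ≠ 0) (s : SB W P.X)
    {b : Module.Basis (Fin (n + 1) → Fin s.NC ⊕ Fin s.NT) W.K (W.H (nest ops n fun _ => P).X)}
    (hb : ∀ r, b r = mono (prj ops n fun _ => P) fun p => s.e (r p)) :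
    ∃ c₀ t, hS s b c c₀ t ≠ 0 := by
  by_contra hcon
  push Not at hcon
  apply hc
  rw [expand b c, sum_patterns]
  refine Finset.sum_eq_zero fun c₀ _ => Finset.sum_eq_zero fun r _ => ?_
  rw [coord_eq hb, ← hS_comb, hcon, map_zero, mul_zero]

omit hb in
/-- The cohomology of the product is generated. -/
theorem generated_prod {N : Type} {F : N → PRep W.K Γ} {A : Set N}
    (hDX : HomEqNum W P.X) (hG : IsGalois W χ P.X ρ) (hP : IsPowAct W P n Z ρ τ υ)
    (hτ : Generated F A fun g => (τ g).toLinearMap) (o : N)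
    (e : (F o).V →ₗ[W.K] transcendental W P.X) (he : Surjective e)
    (hequiv : ∀ g x, e ((F o).ρ g x) = rhoT hG g (e x)) :
    Generated F (insert o A) fun g => (υ g).toLinearMap := by
  classical
  intro x hx
  obtain ⟨s⟩ := exists_SB hDX
  obtain ⟨b, hb⟩ := exists_monoBasis (ops := ops) P s.e n
  obtain ⟨c₀, t, ht⟩ := exists_pattern hx s hb
  obtain ⟨I, hI, c, J, hc, ⟨Δ, hΔ, hJ⟩, hJx⟩ := hτ _ ht
  obtain ⟨Δ', hΔ', hfix⟩ := exists_fix hG s
  let c' : Free c₀ ⊕ I → N := Sum.elim (fun _ => o) c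
  let g0 : W.H ((nest ops n fun _ => P).X.prod Z) →
      MultilinearMap W.K (fun _ : Free c₀ => (F o).V)
        (MultilinearMap W.K (fun i => (F (c i)).V) W.K) :=
    fun z => J.compMultilinearMap ((hS s b z c₀).compLinearMap fun _ => e)
  let Φ : W.H ((nest ops n fun _ => P).X.prod Z) →
      MultilinearMap W.K (fun q => (F (c' q)).V) W.K :=
    fun z => MultilinearMap.uncurrySum (N := fun q => (F (c' q)).V) (g0 z)
  have hΦ : ∀ z (w : ∀ q, (F (c' q)).V), Φ z w =
      J (hS s b z c₀ fun j => e (w (Sum.inl j))) fun i => w (Sum.inr i) :=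
    fun z w => rfl
  let Ψ : W.H ((nest ops n fun _ => P).X.prod Z) →ₗ[W.K]
      MultilinearMap W.K (fun q => (F (c' q)).V) W.K :=
    { toFun := Φ
      map_add' := fun z z' => by
        refine MultilinearMap.ext fun w => ?_
        rw [_root_.add_apply, hΦ, hΦ, hΦ, hS_add hb, _root_.add_apply, map_add]
        rfl
      map_smul' := fun r z => by
        refine MultilinearMap.ext fun w => ?_
        rw [RingHom.id_apply, _root_.smul_apply, hΦ, hΦ, hS_smul hb, _root_.smul_apply, map_smul]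
        rfl }
  have hΨ : ∀ z w, Ψ z w = J (hS s b z c₀ fun j => e (w (Sum.inl j))) fun i => w (Sum.inr i) :=
    fun z w => rfl
  refine ⟨Free c₀ ⊕ I, inferInstance, c', Ψ, ?_, ⟨Δ ⊓ Δ', inferInstance, fun g hg => ?_⟩, ?_⟩
  · rintro (j | i)
    · exact Set.mem_insert _ _
    · exact Set.mem_insert_of_mem _ (hc i)
  · obtain ⟨μ, hμ⟩ := hJ g hg.1
    refine ⟨((∏ p, ((χ g : W.K) ^ fixw s c₀ p)⁻¹) * ((χ g : W.K) ^ P.X.dim) ^ (n + 1)) * μ,
      fun z w => ?_⟩
    have h1 := hS_act hb hG hP (hfix g hg.2) z c₀ fun j => e (w (Sum.inl j))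
    have h2 := hμ (hS s b z c₀ fun j => e (w (Sum.inl j))) fun i => w (Sum.inr i)
    have h3 : (fun j => e ((F o).ρ g (w (Sum.inl j)))) =
        fun j => rhoT hG g (e (w (Sum.inl j))) := by
      funext j
      exact hequiv g _
    change J (hS s b (υ g z) c₀ fun j => e ((F o).ρ g (w (Sum.inl j))))
      (fun i => (F (c i)).ρ g (w (Sum.inr i))) = _ * J (hS s b z c₀ fun j => e (w (Sum.inl j)))
        (fun i => w (Sum.inr i))
    rw [h3, h1, map_smul, mul_assoc, ← h2]
    rfl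
  · intro h0
    apply hJx
    refine MultilinearMap.ext fun u => ?_
    choose t' ht' using fun j => he (t j)
    let w : ∀ q, (F (c' q)).V := fun q => match q with
      | Sum.inl j => t' j
      | Sum.inr i => u i
    have h1 : Ψ x w = 0 := by
      rw [h0]
      rfl
    have h2 : (fun j => e (t' j)) = t := funext ht'
    rw [← h2]
    exact h1

end Pool.Agent.H802T
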