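import Pool.Agent.TH125.Gal.Pub

/-!
# Varieties with big and unrelated monodromy: definitions
-/

open CategoryTheory AlgebraicGeometry Module

universe u

namespace Pool.Agent.H802T

section forms

variable {K V V' : Type} [Field K] [AddCommGroup V] [Module K V] [AddCommGroup V'] [Module K V']
  {Γ : Type} [Group Γ]

/-- The vector `ρ g x`. -/
def opr (ρ : Γ →* (V →ₗ[K] V)) (g : Γ) (x : V) : V := ρ g x

/-- The number `B x y`. -/
def val (B : V →ₗ[K] V →ₗ[K] K) (x y : V) : K := B x y

/-- A nondegenerate symmetric (`sign = 1`) or alternating (`sign = -1`) bilinear form `B` which is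
multiplied by scalars by the elements of `Γ`. -/
structure IsPol (ρ : Γ →* (V →ₗ[K] V)) (B : V →ₗ[K] V →ₗ[K] K) (mult : Γ → K) (sign : ℤˣ) :
    Prop where
  nondeg : ∀ x, (∀ y, val B x y = 0) → x = 0
  symm : ∀ x y, val B x y = ((sign : ℤ) : K) * val B y x
  act : ∀ g x y, val B (opr ρ g x) (opr ρ g y) = mult g * val B x y

/-- Big monodromy: the Lie algebra of the orthogonal or symplectic group of the form is not
commutative, and an irreducible representation of `Γ` (acting by conjugation). -/
def Big (ρ : Γ →* (V →ₗ[K] V)) (B : V →ₗ[K] V →ₗ[K] K) : Prop :=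
  (∃ X ∈ B.skewAdjointSubmodule, ∃ Y ∈ B.skewAdjointSubmodule, X * Y ≠ Y * X) ∧
    ∀ U ≤ B.skewAdjointSubmodule, (∀ g, ∀ X ∈ U, ρ g * X * ρ g⁻¹ ∈ U) →
      U = ⊥ ∨ U = B.skewAdjointSubmodule

/-- Some element of `Γ` has two eigenvalues whose quotient is not a root of unity. -/
def Hyperbolic (ρ : Γ →* (V →ₗ[K] V)) : Prop :=
  ∃ (g : Γ) (x y : V), x ≠ 0 ∧ y ≠ 0 ∧ ∃ a b : K, opr ρ g x = a • x ∧ opr ρ g y = b • y ∧
    ∀ k : ℕ, 0 < k → a ^ k ≠ b ^ k

/-- Some subgroup of finite index acts through a commutative group. -/
def PotAbelian (ρ : Γ →* (V →ₗ[K] V)) : Prop :=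
  ∃ Δ : Subgroup Γ, Δ.FiniteIndex ∧ ∀ g ∈ Δ, ∀ h ∈ Δ, ∀ x, opr ρ g (opr ρ h x) = opr ρ h (opr ρ g x)

/-- `D` is the multiplication by `θ a` on the generalized eigenspace of `f` for the eigenvalue `a`.
Here `θ` is an additive function on the multiplicative group of the field, for instance a `p`-adic
valuation: if `f` is the Frobenius element then `D` is the slope operator. -/
def IsSlope (θ : Additive Kˣ →+ K) (f D : End K V) : Prop :=
  ∀ (a : Kˣ), ∀ x ∈ f.maxGenEigenspace (a : K), D x = θ (Additive.ofMul a) • x

/-- The bracket with `D`. -/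
def adm (D : End K V) : End K (End K V) :=
  LinearMap.mulLeft K D - LinearMap.mulRight K D

/-- The dimension of the part of the Lie algebra of the orthogonal or symplectic group on which
the bracket with `D` is (in the generalized sense) the multiplication by `k`. -/
noncomputable def wt (B : V →ₗ[K] V →ₗ[K] K) (D : End K V) (k : K) : ℕ :=
  finrank K (B.skewAdjointSubmodule ⊓ (adm D).maxGenEigenspace k : Submodule K (End K V))

/-- For some element `g` of `Γ` and some additive function `θ`, some graded part of the Lie algebra of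
the orthogonal or symplectic group of `B'`, for the grading given by the slopes of `g`, has a smaller
dimension than the same part for `B`. -/
def SmallerForm (ρ' : Γ →* (V' →ₗ[K] V')) (B' : V' →ₗ[K] V' →ₗ[K] K) (ρ : Γ →* (V →ₗ[K] V))
    (B : V →ₗ[K] V →ₗ[K] K) : Prop :=
  ∃ (g : Γ) (θ : Additive Kˣ →+ K) (D' : End K V') (D : End K V) (k : K),
    IsSlope θ (ρ' g) D' ∧ IsSlope θ (ρ g) D ∧ wt B' D' k < wt B D k

end forms

section generation

variable {K : Type} [Field K] {Γ : Type} [Group Γ]

/-- The function `f` is multilinear. -/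
def IsMultilinear (K : Type) [Field K] {I : Type} {V : I → Type} [∀ i, AddCommGroup (V i)]
    [∀ i, Module K (V i)] (f : (∀ i, V i) → K) : Prop :=
  ∃ F : MultilinearMap K V K, ∀ v, F v = f v

/-- A linear map from `A` to the multilinear forms on some of the spaces `V j`. -/
structure GenMap (K : Type) [Field K] {N : Type} (V : N → Type) [∀ j, AddCommGroup (V j)]
    [∀ j, Module K (V j)] (A : Type) [Ring A] [Algebra K A] where
  /-- the index set of the variables -/
  I : Type
  [fin : Fintype I]
  /-- the spaces of the variables -/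
  c : I → N
  /-- the map -/
  app : A → (∀ i, V (c i)) → K
  lin : ∀ v, IsLinearMap K fun z => app z v
  mult : ∀ z, IsMultilinear K (app z)

/-- The operators `τ g`, `g ∈ Γ`, on `A` are generated by the operators `ρ j g` on the spaces `V j`:
for each `x ≠ 0` in `A` there is a linear map `J` from `A` to the multilinear forms on some of the
spaces `V j`, `J x ≠ 0`, which is equivariant up to scalars for a subgroup of finite index. -/
def Spanned {N : Type} {V : N → Type} [∀ j, AddCommGroup (V j)] [∀ j, Module K (V j)]
    (ρ : ∀ j, Γ →* (V j →ₗ[K] V j)) {A : Type} [Ring A] [Algebra K A] (τ : Γ →* (A ≃ₐ[K] A)) :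
    Prop :=
  ∀ x : A, x ≠ 0 → ∃ J : GenMap K V A, (∃ v, J.app x v ≠ 0) ∧
    ∃ Δ : Subgroup Γ, Δ.FiniteIndex ∧ ∀ g ∈ Δ, ∃ μ : K, ∀ z v,
      J.app (τ g z) (fun i => opr (ρ (J.c i)) g (v i)) = μ * J.app z v

/-- The space `V` with the operators `ρ g` and the form `B` is isomorphic to the subspace `U` of `A`
with the operators `τ g` and the form `tr (x * y)`. -/
def IsForm {V : Type} [AddCommGroup V] [Module K V] (ρ : Γ →* (V →ₗ[K] V))
    (B : V →ₗ[K] V →ₗ[K] K) {A : Type} [Ring A] [Algebra K A] (U : Submodule K A)
    (τ : Γ →* (A ≃ₐ[K] A)) (tr : A →ₗ[K] K) : Prop :=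
  ∃ e : V ≃ₗ[K] U, (∀ g x, (e (opr ρ g x) : A) = τ g (e x)) ∧
    ∀ x y, val B x y = tr ((e x : A) * (e y : A))

/-- The subspace `U` is contained in `U'`. -/
def Within {A : Type} [Ring A] [Algebra K A] (U U' : Submodule K A) : Prop := U ≤ U'

end generation

/-- A finite-dimensional representation `V` of the group `Γ` over `K` with a nondegenerate symmetric
(`sign = 1`) or alternating (`sign = -1`) bilinear form which is multiplied by scalars by the
elements of `Γ`. -/
structure PRep (K : Type) [Field K] (Γ : Type) [Group Γ] where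
  /-- the space -/
  V : Type
  [grp : AddCommGroup V]
  [mod : Module K V]
  [fin : FiniteDimensional K V]
  /-- the action -/
  ρ : Γ →* (V →ₗ[K] V)
  /-- the form -/
  form : V →ₗ[K] V →ₗ[K] K
  /-- the multiplier -/
  mult : Γ → K
  /-- the sign -/
  sign : ℤˣ
  isPol : IsPol ρ form mult sign

attribute [instance] PRep.grp PRep.mod PRep.fin

section rep

variable {K : Type} [Field K] {Γ : Type} [Group Γ]

/-- The dimension of the representation. -/
noncomputable def PRep.dim (P : PRep K Γ) : ℕ := finrank K P.V

/-- `d (d - ε)`, twice the dimension of the orthogonal or symplectic group of the form, where `d` is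
the dimension and `ε` the sign. -/
noncomputable def PRep.size (P : PRep K Γ) : ℤ := P.dim * (P.dim - (P.sign : ℤ))

/-- For some element `g` of `Γ` and some additive function `θ`, some graded part of the Lie algebra of
the orthogonal or symplectic group of `Q`, for the grading given by the slopes of `g`, has a smaller
dimension than the same part for `P`. For `θ = 0` this says that the group for `Q` has a smaller
dimension than the group for `P`. -/
def Smaller (Q P : PRep K Γ) : Prop := SmallerForm Q.ρ Q.form P.ρ P.form

/-- The representations `P` and `Q` are isomorphic up to scalars. -/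
def Proportional (P Q : PRep K Γ) : Prop :=
  ∃ u : P.V ≃ₗ[K] Q.V, ∀ g, ∃ a : K, ∀ x, u (opr P.ρ g x) = a • opr Q.ρ g (u x)

/-- A condition which shows that the representation `Q` is unrelated to `P`: its group is smaller
than the group of `P`; or it is potentially abelian; or it has big monodromy, and its group is larger
than the group of `P`, or it has the same dimension (not eight for symmetric forms) and sign, but is
not isomorphic to `P` up to scalars. -/
def Unrelated (Q P : PRep K Γ) : Prop :=
  Smaller Q P ∨ PotAbelian Q.ρ ∨ (Big Q.ρ Q.form ∧ (Smaller P Q ∨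
    (Q.dim = P.dim ∧ Q.sign = P.sign ∧ (P.dim = 8 → P.sign = -1) ∧ ¬ Proportional P Q)))

end rep

open Pool.Agent.TH125.Gal
open Pool.Agent.H914 Pool.Agent.H914.VarClass Pool.Agent.H914.VarClass.Obj
  Pool.Agent.H914.WeilCohomology Pool.Agent.H281R3.HT Pool.Agent.W552

variable {k : Type u} [Field k] {𝒱 : VarClass k} {ops : CycleOps 𝒱}
  {W : WeilCohomology.{u, 0} ops} {Γ : Type} [Group Γ]

/-- The representation `T` with its form is isomorphic to the transcendental cohomology of the variety
`X` (the orthogonal complement of all algebraic classes) with the intersection form. -/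
def IsTrans (X : GVar W Γ) (T : PRep W.K Γ) : Prop :=
  IsForm T.ρ T.form (transcendental W X.X) X.act (W.tr X.X)

/-- The cohomology of the variety `Z` is generated by the representations `G j`. -/
def GeneratedBy {N : Type} (G : N → PRep W.K Γ) (Z : GVar W Γ) : Prop :=
  Spanned (fun j => (G j).ρ) Z.act

/-- `Γ` acts on the cohomology of the varieties `X i` like a Galois group; numerical and homological
equivalence coincide for them; their transcendental cohomology `T i` is in the middle degree and has
big monodromy, and it is unrelated to that of the other `X j` and to the representations `G j`. -/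
structure Independent (χ : Γ →* W.Kˣ) {ι N : Type} (X : ι → GVar W Γ) (T : ι → PRep W.K Γ)
    (G : N → PRep W.K Γ) : Prop where
  galois : ∀ i, IsGaloisAct χ (W.gr (X i).X) (X i).X.dim (W.tr (X i).X)
    (algClasses W (X i).X) (X i).act
  homEqNum : ∀ i, HomEqNum W (X i).X
  middle : ∀ i, Within (transcendental W (X i).X) (W.gr (X i).X (X i).X.dim)
  trans : ∀ i, IsTrans (X i) (T i)
  big : ∀ i, Big (T i).ρ (T i).form
  hyperbolic : ∀ i, Hyperbolic (T i).ρ
  unrelated : ∀ i j, j ≠ i → Unrelated (T j) (T i)
  unrelated' : ∀ i j, Unrelated (G j) (T i)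

/-- The product of `n + 1` copies of `X` and of `Z`. -/
noncomputable def powTimes (X : GVar W Γ) (n : ℕ) (Z : GVar W Γ) : 𝒱.Obj :=
  (power ops X.X n).prod Z.X

/-- The projections to the copies of `X`. -/
noncomputable def toPow (X : GVar W Γ) (n : ℕ) (Z : GVar W Γ) (p : Fin (n + 1)) :
    powTimes X n Z ⟶ X.X := fst (power ops X.X n) Z.X ≫ powerPrj ops X.X n p

/-- The projection to `Z`. -/
noncomputable def toRest (X : GVar W Γ) (n : ℕ) (Z : GVar W Γ) : powTimes X n Z ⟶ Z.X :=
  snd (power ops X.X n) Z.X

/-- The morphism `f` induces an equivariant map of the cohomology. -/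
def Commutes (X Y : GVar W Γ) (f : Y.X ⟶ X.X) : Prop := Intertwines (W.map f) X.act Y.act

/-- `Y` is the product of `n + 1` copies of `X` and of `Z`, with an action on the cohomology which
is compatible with the projections to the factors. -/
def IsPowTimes (X : GVar W Γ) (n : ℕ) (Z Y : GVar W Γ) : Prop :=
  ∃ h : Y.X = powTimes X n Z, (∀ p, Commutes X Y (eqToHom h ≫ toPow X n Z p)) ∧
    Commutes Z Y (eqToHom h ≫ toRest X n Z)

/-- The varieties `Y = X_1^(n_1) × (X_2^(n_2) × ( ⋯ × Z))`, where the `X_i` are pairwise different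
members of the family `X` (`S` is the set of the indices which are used), where `n_i` is less than
the dimension of `T_i` if the dimension of `X_i` is even. -/
inductive Tower {ι : Type} (X : ι → GVar W Γ) (T : ι → PRep W.K Γ) (Z : GVar W Γ) :
    Set ι → GVar W Γ → Prop
  | base : Tower X T Z ∅ Z
  | step {S Y Y'} (i : ι) (n : ℕ) : Tower X T Z S Y → i ∉ S →
      (Even (X i).X.dim → n + 1 < (T i).dim) → IsPowTimes (X i) n Y Y' →
      Tower X T Z (insert i S) Y'

end Pool.Agent.H802T
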